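import Pool.Agent.H222.EX.Restr

/-!
From bounded functions to `L^q`.
-/

open MeasureTheory Set Filter Metric
open scoped ENNReal NNReal Topology

namespace Pool.Agent.H222.EX

open Pool.Agent.Helper184.PH Pool.Agent.Helper184.PH.P3

theorem gain {q₀ : ℝ} (h0 : 2 ≤ q₀) (hL : ∀ q, q₀ < q → LI (ball 0 2) q) {q : ℝ} (hq : q₀ < q) :
    ∃ C : ℝ≥0∞, C ≠ ∞ ∧ ∃ γ : ℝ, 0 < γ ∧ ∀ A : Set (E 2), MeasurableSet A →
      A ⊆ ball (0 : E 2) 1 → ∀ a : ℝ≥0, 0 < a → a ≤ 1 → volume A ≤ a →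
      ∀ f : E 2 → ℂ, Measurable f → (∀ x, ‖f x‖ ≤ 1) → (∀ x, x ∉ A → f x = 0) →
        NN q f ≤ C * (a : ℝ≥0∞) ^ (1 + γ) := by
  set δ : ℝ := min 1 (q - q₀) with hδ
  have hδ0 : 0 < δ := lt_min one_pos (by linarith)
  have hδ1 : δ ≤ 1 := min_le_left _ _
  have hδ2 : δ ≤ q - q₀ := min_le_right _ _
  obtain ⟨C, hC, h⟩ := restricted (q₂ := q - 2 * δ / 3) (q₁ := q - δ / 3)
    (by linarith) (by linarith) (hL _ (by linarith)) (ε := δ / 6) (by linarith) (by linarith)
  refine ⟨C, hC, δ / 6, by linarith, fun A hA hAb a ha0 ha1 hAa f hf hf1 hfA => ?_⟩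
  have ha0' : (a : ℝ≥0∞) ≠ 0 := by exact_mod_cast ha0.ne'
  have hat : (a : ℝ≥0∞) ≠ ∞ := ENNReal.coe_ne_top
  have h1 := h A hA hAb a ha0 ha1 hAa f hf hf1 hfA
  have h2 := NN_exp (q := q) (by linarith : 0 ≤ q - δ / 3) (by linarith) f
    ((lint_le hf1 hA hfA).trans hAa)
  refine h2.trans ?_
  calc (a : ℝ≥0∞) ^ (q - (q - δ / 3)) * NN (q - δ / 3) f
      ≤ (a : ℝ≥0∞) ^ (q - (q - δ / 3)) * (C * (a : ℝ≥0∞) ^ (1 - δ / 6)) := by gcongr
    _ = C * ((a : ℝ≥0∞) ^ (q - (q - δ / 3)) * (a : ℝ≥0∞) ^ (1 - δ / 6)) := by ring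
    _ = C * (a : ℝ≥0∞) ^ (1 + δ / 6) := by
        rw [← ENNReal.rpow_add _ _ ha0' hat]
        congr 2
        ring

/-- the part of `g` where `|g| < 2^n` -/
noncomputable def low (g : E 2 → ℂ) (n : ℕ) : E 2 → ℂ := {x | ‖g x‖ < 2 ^ n}.indicator g

/-- the part of `g` where `2^n ≤ |g| < 2^(n+1)` -/
noncomputable def mid (g : E 2 → ℂ) (n : ℕ) : E 2 → ℂ :=
  {x | 2 ^ n ≤ ‖g x‖ ∧ ‖g x‖ < 2 ^ (n + 1)}.indicator g

theorem low_meas {g : E 2 → ℂ} (hg : Measurable g) (n : ℕ) : Measurable (low g n) :=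
  hg.indicator (measurableSet_lt hg.norm measurable_const)

theorem mid_meas {g : E 2 → ℂ} (hg : Measurable g) (n : ℕ) : Measurable (mid g n) :=
  hg.indicator ((measurableSet_le measurable_const hg.norm).inter
    (measurableSet_lt hg.norm measurable_const))

theorem low_le (g : E 2 → ℂ) (n : ℕ) (x : E 2) : ‖low g n x‖ ≤ 2 ^ n := by
  unfold low
  by_cases hx : ‖g x‖ < 2 ^ n
  · rw [indicator_of_mem (by exact hx)]; exact hx.le
  · rw [indicator_of_notMem (by exact hx), norm_zero]; positivity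

theorem mid_le (g : E 2 → ℂ) (n : ℕ) (x : E 2) : ‖mid g n x‖ ≤ 2 ^ (n + 1) := by
  unfold mid
  by_cases hx : 2 ^ n ≤ ‖g x‖ ∧ ‖g x‖ < 2 ^ (n + 1)
  · rw [indicator_of_mem (by exact hx)]; exact hx.2.le
  · rw [indicator_of_notMem (by exact hx), norm_zero]; positivity

theorem low_succ (g : E 2 → ℂ) (n : ℕ) : low g (n + 1) = fun x => low g n x + mid g n x := by
  funext x
  unfold low mid
  have h2 : (2 : ℝ) ^ n ≤ 2 ^ (n + 1) := pow_le_pow_right₀ (by norm_num) (by omega)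
  by_cases h1 : ‖g x‖ < 2 ^ n
  · rw [indicator_of_mem (show x ∈ {x | ‖g x‖ < 2 ^ (n + 1)} from h1.trans_le h2),
      indicator_of_mem (show x ∈ {x | ‖g x‖ < 2 ^ n} from h1),
      indicator_of_notMem (fun h => absurd h.1 (not_le.2 h1)), add_zero]
  · rw [indicator_of_notMem (show x ∉ {x | ‖g x‖ < 2 ^ n} from h1), zero_add]
    by_cases h3 : ‖g x‖ < 2 ^ (n + 1)
    · rw [indicator_of_mem (show x ∈ {x | ‖g x‖ < 2 ^ (n + 1)} from h3),
        indicator_of_mem (show x ∈ {x | 2 ^ n ≤ ‖g x‖ ∧ ‖g x‖ < 2 ^ (n + 1)} from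
          ⟨not_lt.1 h1, h3⟩)]
    · rw [indicator_of_notMem (show x ∉ {x | ‖g x‖ < 2 ^ (n + 1)} from h3),
        indicator_of_notMem (fun h => absurd h.2 h3)]

theorem strong {q₀ : ℝ} (h0 : 2 ≤ q₀) (hL : ∀ q, q₀ < q → LI (ball 0 2) q) {q : ℝ} (hq : q₀ < q) :
    ∃ C : ℝ≥0∞, C ≠ ∞ ∧ ∀ g : E 2 → ℂ, Measurable g → (∀ x, x ∉ ball (0 : E 2) 1 → g x = 0) →
      ∫⁻ x, ‖g x‖ₑ ^ q ≤ 1 → NN q g ≤ C := by
  obtain ⟨C, hCt, γ, hγ, hC⟩ := gain h0 hL hq
  obtain ⟨C₀, hC₀⟩ := hL q hq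
  have hq0 : 0 < q := by linarith
  have hq1 : 1 ≤ q := by linarith
  have hqi : 0 ≤ 1 / q := by positivity
  set r : ℝ≥0∞ := ENNReal.ofReal ((2 : ℝ) ^ (-γ)) with hr
  have hr1 : r < 1 := by
    rw [hr, ← ENNReal.ofReal_one]
    refine (ENNReal.ofReal_lt_ofReal_iff one_pos).2 ?_
    exact Real.rpow_lt_one_of_one_lt_of_neg (by norm_num) (by linarith)
  set B : ℝ≥0∞ := (C₀ : ℝ≥0∞) ^ (1 / q) + 2 * C ^ (1 / q) * ∑' n : ℕ, r ^ n with hB
  have hBt : B ≠ ∞ := by
    refine ENNReal.add_ne_top.2 ⟨ENNReal.rpow_ne_top_of_nonneg hqi ENNReal.coe_ne_top, ?_⟩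
    refine ENNReal.mul_ne_top (ENNReal.mul_ne_top (by simp)
      (ENNReal.rpow_ne_top_of_nonneg hqi hCt)) ?_
    rw [ENNReal.tsum_geometric]
    exact ENNReal.inv_ne_top.2 (by rw [Ne, tsub_eq_zero_iff_le, not_le]; exact hr1)
  refine ⟨B ^ q, ENNReal.rpow_ne_top_of_nonneg hq0.le hBt, fun g hg hg0 hgq => ?_⟩
  have hlow0 : ∀ n x, x ∉ ball (0 : E 2) 1 → low g n x = 0 := fun n x hx => by
    unfold low; exact indicator_apply_eq_zero.2 fun _ => hg0 x hx
  have hmid0 : ∀ n x, x ∉ ball (0 : E 2) 1 → mid g n x = 0 := fun n x hx => by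
    unfold mid; exact indicator_apply_eq_zero.2 fun _ => hg0 x hx
  have hlowi : ∀ n, Integrable (low g n) := fun n =>
    integrable_of_bdd (low_meas hg n) (low_le g n) (hlow0 n)
  have hmidi : ∀ n, Integrable (mid g n) := fun n =>
    integrable_of_bdd (mid_meas hg n) (mid_le g n) (hmid0 n)
  -- one piece
  have hmid : ∀ n, NN q (mid g n) ^ (1 / q) ≤ 2 * C ^ (1 / q) * r ^ n := fun n => by
    set A : Set (E 2) := ball (0 : E 2) 1 ∩ {x | 2 ^ n ≤ ‖g x‖ ∧ ‖g x‖ < 2 ^ (n + 1)} with hA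
    have hAm : MeasurableSet A := measurableSet_ball.inter
      ((measurableSet_le measurable_const hg.norm).inter
        (measurableSet_lt hg.norm measurable_const))
    set a : ℝ≥0 := (2 : ℝ≥0) ^ (-(n * q)) with ha
    have ha0 : 0 < a := NNReal.rpow_pos (by norm_num)
    have ha1 : a ≤ 1 := by
      apply NNReal.coe_le_coe.1
      rw [ha, NNReal.coe_rpow]
      exact Real.rpow_le_one_of_one_le_of_nonpos (by norm_num)
        (by simp only [Left.neg_nonpos_iff]; positivity)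
    have hAa : volume A ≤ a := by
      have e1 : (2 : ℝ≥0∞) ^ (n * q) * volume A ≤ 1 := by
        calc (2 : ℝ≥0∞) ^ (n * q) * volume A = ∫⁻ x in A, (2 : ℝ≥0∞) ^ (n * q) := by
              rw [setLIntegral_const]
          _ ≤ ∫⁻ x in A, ‖g x‖ₑ ^ q := by
              refine setLIntegral_mono' hAm fun x hx => ?_
              rw [ENNReal.rpow_mul, ENNReal.rpow_natCast]
              refine ENNReal.rpow_le_rpow ?_ hq0.le
              have := hx.2.1
              rw [← ofReal_norm, show (2 : ℝ≥0∞) = ENNReal.ofReal 2 by simp,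
                ← ENNReal.ofReal_pow (by norm_num)]
              exact ENNReal.ofReal_le_ofReal this
          _ ≤ ∫⁻ x, ‖g x‖ₑ ^ q := setLIntegral_le_lintegral _ _
          _ ≤ 1 := hgq
      have e2 : (a : ℝ≥0∞) = ((2 : ℝ≥0∞) ^ (n * q))⁻¹ := by
        rw [ha, ENNReal.coe_rpow_of_ne_zero (by norm_num), ENNReal.rpow_neg]
        norm_num
      rw [e2]
      rw [ENNReal.le_inv_iff_mul_le, mul_comm]
      exact e1
    have h1 := LI_scale hq0.le (O := A) (fun f hf hf1 hfA =>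
      hC A hAm inter_subset_left a ha0 ha1 hAa f hf hf1 hfA) (M := 2 ^ (n + 1)) (by positivity)
      (mid_meas hg n) (mid_le g n) (fun x hx => by
        by_cases hxb : x ∈ ball (0 : E 2) 1
        · unfold mid
          exact indicator_of_notMem (fun h => hx ⟨hxb, h⟩) _
        · exact hmid0 n x hxb)
    calc NN q (mid g n) ^ (1 / q)
        ≤ (ENNReal.ofReal (2 ^ (n + 1)) ^ q * (C * (a : ℝ≥0∞) ^ (1 + γ))) ^ (1 / q) :=
          ENNReal.rpow_le_rpow h1 hqi
      _ = ENNReal.ofReal (2 ^ (n + 1)) * (C ^ (1 / q) * (a : ℝ≥0∞) ^ ((1 + γ) * (1 / q))) := by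
          rw [ENNReal.mul_rpow_of_nonneg _ _ hqi, ENNReal.mul_rpow_of_nonneg _ _ hqi,
            ← ENNReal.rpow_mul, ← ENNReal.rpow_mul, mul_one_div_cancel hq0.ne', ENNReal.rpow_one]
      _ = C ^ (1 / q) * (ENNReal.ofReal (2 ^ (n + 1)) * (a : ℝ≥0∞) ^ ((1 + γ) * (1 / q))) := by
          ring
      _ = C ^ (1 / q) * (2 * r ^ n) := by
          congr 1
          rw [ha, ENNReal.coe_rpow_of_ne_zero (by norm_num), ← ENNReal.rpow_mul,
            show ((2 : ℝ≥0) : ℝ≥0∞) = ENNReal.ofReal 2 by simp,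
            ENNReal.ofReal_rpow_of_pos (by norm_num), ← ENNReal.ofReal_mul (by positivity), hr,
            ← ENNReal.ofReal_pow (by positivity),
            show (2 : ℝ≥0∞) = ENNReal.ofReal 2 by simp, ← ENNReal.ofReal_mul (by positivity)]
          congr 1
          rw [← Real.rpow_natCast, ← Real.rpow_natCast, ← Real.rpow_mul (by norm_num),
            ← Real.rpow_add (by norm_num)]
          nth_rewrite 2 [← Real.rpow_one (2 : ℝ)]
          rw [← Real.rpow_add (by norm_num)]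
          congr 1
          push_cast
          field_simp
          ring
      _ = 2 * C ^ (1 / q) * r ^ n := by ring
  -- the sum
  have hlow : ∀ n, NN q (low g n) ^ (1 / q) ≤
      (C₀ : ℝ≥0∞) ^ (1 / q) + 2 * C ^ (1 / q) * ∑ k ∈ Finset.range n, r ^ k := fun n => by
    induction n with
    | zero =>
      simp only [Finset.range_zero, Finset.sum_empty, mul_zero, add_zero]
      refine ENNReal.rpow_le_rpow (hC₀ _ (low_meas hg 0) (fun x => ?_) fun x hx => ?_) hqi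
      · simpa using low_le g 0 x
      · exact hlow0 0 x fun h => hx (ball_subset_ball (by norm_num) h)
    | succ n ih =>
      rw [low_succ, Finset.sum_range_succ, mul_add, ← add_assoc]
      exact (NN_add hq1 (hlowi n) (hmidi n)).trans (add_le_add ih (hmid n))
  have hlowB : ∀ n, NN q (low g n) ≤ B ^ q := fun n => by
    have h1 : NN q (low g n) ^ (1 / q) ≤ B := (hlow n).trans (by
      rw [hB]
      gcongr
      exact ENNReal.sum_le_tsum _)
    calc NN q (low g n) = (NN q (low g n) ^ (1 / q)) ^ q := by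
          rw [← ENNReal.rpow_mul, one_div_mul_cancel hq0.ne', ENNReal.rpow_one]
      _ ≤ B ^ q := ENNReal.rpow_le_rpow h1 hq0.le
  -- the limit
  have hgi : Integrable g := by
    refine ⟨hg.aestronglyMeasurable, ?_⟩
    have e1 : ∀ x, ‖g x‖ₑ ≤ (ball (0 : E 2) 1).indicator (fun _ => (1 : ℝ≥0∞)) x + ‖g x‖ₑ ^ q :=
      fun x => by
        by_cases hx : x ∈ ball (0 : E 2) 1
        · rw [indicator_of_mem hx]
          rcases le_total ‖g x‖ₑ 1 with h | h
          · exact h.trans le_self_add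
          · calc ‖g x‖ₑ = ‖g x‖ₑ ^ (1 : ℝ) := (ENNReal.rpow_one _).symm
              _ ≤ ‖g x‖ₑ ^ q := ENNReal.rpow_le_rpow_of_exponent_le h hq1
              _ ≤ _ := le_add_self
        · rw [hg0 x hx]; simp
    refine (lintegral_mono e1).trans_lt ?_
    rw [lintegral_add_left (measurable_const.indicator measurableSet_ball),
      lintegral_indicator measurableSet_ball, setLIntegral_one]
    exact ENNReal.add_lt_top.2 ⟨measure_ball_lt_top, hgq.trans_lt ENNReal.one_lt_top⟩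
  refine NN_fatou hq0.le hlowi (fun ξ => ?_) hlowB
  unfold TT
  refine tendsto_integral_of_dominated_convergence (fun x => ‖g x‖)
    (fun n => (TT_int (hlowi n) ξ).aestronglyMeasurable) hgi.norm
    (fun n => Eventually.of_forall fun x => ?_) (Eventually.of_forall fun x => ?_)
  · rw [norm_mul, K3_norm_eq, mul_one]
    unfold low
    exact norm_indicator_le_norm_self _ _
  · obtain ⟨N, hN⟩ := pow_unbounded_of_one_lt ‖g x‖ (by norm_num : (1 : ℝ) < 2)
    refine tendsto_const_nhds.congr' ?_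
    filter_upwards [eventually_ge_atTop N] with n hn
    congr 1
    unfold low
    rw [indicator_of_mem]
    exact hN.trans_le (pow_le_pow_right₀ (by norm_num) hn)

/-- bounded functions decide the problem -/
theorem Est_of_LI {q₀ : ℝ} (h0 : 2 ≤ q₀) (hL : ∀ q, q₀ < q → LI (ball 0 2) q) {U : Set (E 2)}
    (hU : MeasurableSet U) (hUb : U ⊆ ball 0 (1 / 2)) {q : ℝ} (hq : q₀ < q) : Est U q := by
  obtain ⟨C, hCt, hC⟩ := strong h0 hL hq
  have hq0 : 0 < q := by linarith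
  refine ⟨C.toNNReal, fun f hf hfin => ?_⟩
  rw [ENNReal.coe_toNNReal hCt]
  have hext : ∀ ξ, ext U f ξ = TT (U.indicator f) ξ := fun ξ => by
    unfold P3.ext TT
    rw [← integral_indicator hU]
    refine integral_congr_ae (Eventually.of_forall fun x => ?_)
    by_cases hx : x ∈ U
    · simp only [indicator_of_mem hx]; rfl
    · simp only [indicator_of_notMem hx, zero_mul]
  have hNN : (∫⁻ ξ, ‖ext U f ξ‖ₑ ^ q) = NN q (U.indicator f) := by
    unfold NN; simp only [hext]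
  have hI : (∫⁻ x in U, ‖f x‖ₑ ^ q) = ∫⁻ x, ‖U.indicator f x‖ₑ ^ q := by
    rw [← lintegral_indicator hU]
    refine lintegral_congr fun x => ?_
    by_cases hx : x ∈ U
    · simp only [indicator_of_mem hx]
    · simp only [indicator_of_notMem hx, enorm_zero, ENNReal.zero_rpow_of_pos hq0]
  rw [hNN, hI]
  rw [hI] at hfin
  set g : E 2 → ℂ := U.indicator f with hg
  have hgm : Measurable g := hf.indicator hU
  have hg0 : ∀ x, x ∉ ball (0 : E 2) 1 → g x = 0 := fun x hx => by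
    rw [hg]
    refine indicator_of_notMem (fun h => hx (ball_subset_ball (by norm_num) (hUb h))) _
  set I : ℝ≥0∞ := ∫⁻ x, ‖g x‖ₑ ^ q with hIdef
  rcases eq_or_ne I 0 with hI0 | hI0
  · have h1 : (fun x => ‖g x‖ₑ ^ q) =ᵐ[volume] 0 :=
      (lintegral_eq_zero_iff (hgm.enorm.pow_const q)).1 hI0
    have h2 : g =ᵐ[volume] fun _ => 0 := by
      filter_upwards [h1] with x hx
      have h3 : ‖g x‖ₑ ^ q = 0 := hx
      rw [ENNReal.rpow_eq_zero_iff_of_pos hq0, enorm_eq_zero] at h3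
      exact h3
    rw [NN_congr h2]
    have h4 : NN q (fun _ => 0) = 0 := by
      unfold NN TT
      simp [ENNReal.zero_rpow_of_pos hq0]
    rw [h4]
    exact bot_le
  · set s : ℝ := I.toReal ^ (1 / q) with hs
    have hIr : 0 < I.toReal := ENNReal.toReal_pos hI0 hfin
    have hs0 : 0 < s := Real.rpow_pos_of_pos hIr _
    have hsq : ENNReal.ofReal s ^ q = I := by
      rw [ENNReal.ofReal_rpow_of_pos hs0, hs, ← Real.rpow_mul hIr.le,
        one_div_mul_cancel hq0.ne', Real.rpow_one, ENNReal.ofReal_toReal hfin]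
    have hgs : g = fun x => (s : ℂ) * ((s : ℂ)⁻¹ * g x) := by
      funext x
      have : (s : ℂ) ≠ 0 := by exact_mod_cast hs0.ne'
      field_simp
    have hes : ‖(s : ℂ)‖ₑ = ENNReal.ofReal s := by
      rw [← ofReal_norm, Complex.norm_real, Real.norm_of_nonneg hs0.le]
    have h1 : NN q g = I * NN q (fun x => (s : ℂ)⁻¹ * g x) := by
      conv_lhs => rw [hgs]
      rw [NN_smul hq0.le, hes, hsq]
    rw [h1, mul_comm]
    gcongr
    refine hC _ (hgm.const_mul _) (fun x hx => by rw [hg0 x hx, mul_zero]) ?_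
    have h2 : ∀ x, ‖(s : ℂ)⁻¹ * g x‖ₑ ^ q = I⁻¹ * ‖g x‖ₑ ^ q := fun x => by
      rw [enorm_mul, ENNReal.mul_rpow_of_nonneg _ _ hq0.le, enorm_inv
        (by exact_mod_cast hs0.ne'), hes, ENNReal.inv_rpow, hsq]
    simp only [h2]
    rw [lintegral_const_mul' _ _ (ENNReal.inv_ne_top.2 hI0), ← hIdef,
      ENNReal.inv_mul_cancel hI0 hfin]

end Pool.Agent.H222.EX
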