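import Pool.Graph.R_pool_sql_team_seeded_620a6dc7.Helper184.PH.Main3

/-!
The extension operator of the paraboloid on integrable functions: basic facts, scaling, cutoffs.
-/

open MeasureTheory Set Filter Metric
open scoped ENNReal NNReal Topology

namespace Pool.Agent.H222.EX

open Pool.Agent.Helper184.PH Pool.Agent.Helper184.PH.P3

/-- the extension operator on the whole plane -/
noncomputable def TT (f : E 2 → ℂ) (ξ : E 3) : ℂ := ∫ x, f x * K3 x ξ

theorem K3_cont_left (ξ : E 3) : Continuous fun x => K3 x ξ :=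
  K3_cont.comp (continuous_id.prodMk continuous_const)

theorem TT_int {f : E 2 → ℂ} (hf : Integrable f) (ξ : E 3) :
    Integrable fun x => f x * K3 x ξ := by
  have h1 := (K3_cont_left ξ).aestronglyMeasurable (μ := (volume : Measure (E 2)))
  exact hf.mul_bdd (c := 1) h1 (Eventually.of_forall fun x => K3_norm x ξ)

theorem TT_add {f g : E 2 → ℂ} (hf : Integrable f) (hg : Integrable g) (ξ : E 3) :
    TT (fun x => f x + g x) ξ = TT f ξ + TT g ξ := by
  unfold TT
  rw [← integral_add (TT_int hf ξ) (TT_int hg ξ)]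
  refine integral_congr_ae (Eventually.of_forall fun x => ?_)
  show (f x + g x) * K3 x ξ = f x * K3 x ξ + g x * K3 x ξ
  ring

theorem TT_smul (c : ℂ) (f : E 2 → ℂ) (ξ : E 3) :
    TT (fun x => c * f x) ξ = c * TT f ξ := by
  unfold TT
  rw [← integral_const_mul]
  refine integral_congr_ae (Eventually.of_forall fun x => ?_)
  show c * f x * K3 x ξ = c * (f x * K3 x ξ)
  ring

theorem TT_sub {f g : E 2 → ℂ} (hf : Integrable f) (hg : Integrable g) (ξ : E 3) :
    TT (fun x => f x - g x) ξ = TT f ξ - TT g ξ := by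
  unfold TT
  rw [← integral_sub (TT_int hf ξ) (TT_int hg ξ)]
  refine integral_congr_ae (Eventually.of_forall fun x => ?_)
  show (f x - g x) * K3 x ξ = f x * K3 x ξ - g x * K3 x ξ
  ring

theorem TT_le (f : E 2 → ℂ) (ξ : E 3) : ‖TT f ξ‖ₑ ≤ ∫⁻ x, ‖f x‖ₑ := by
  unfold TT
  refine (enorm_integral_le_lintegral_enorm _).trans (lintegral_mono fun x => ?_)
  rw [enorm_mul]
  have : ‖K3 x ξ‖ₑ = 1 := by
    rw [← ofReal_norm, K3_norm_eq, ENNReal.ofReal_one]
  rw [this, mul_one]

theorem TT_cont {f : E 2 → ℂ} (hf : Integrable f) : Continuous (TT f) := by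
  unfold TT
  refine continuous_of_dominated (bound := fun x => ‖f x‖)
    (fun y => (TT_int hf y).aestronglyMeasurable) (fun y => Eventually.of_forall fun x => ?_)
    hf.norm (Eventually.of_forall fun x => ?_)
  · rw [norm_mul, K3_norm_eq, mul_one]
  · exact continuous_const.mul (K3_cont.comp (continuous_const.prodMk continuous_id))

/-- `q`-th power of the norm of the extension -/
noncomputable def NN (q : ℝ) (f : E 2 → ℂ) : ℝ≥0∞ := ∫⁻ ξ, ‖TT f ξ‖ₑ ^ q

/-- scaling of the extension -/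
theorem TT_resc {u : E 2} {l : ℝ} (hl : 0 < l) (f : E 2 → ℂ) (ξ : E 3) :
    TT f ξ = K3 u ξ * ((l ^ 2 : ℝ) : ℂ) * TT (fun x => f (u + l • x)) (L3 u l hl.ne' ξ) := by
  unfold TT
  set G : E 2 → ℂ := fun η => f (u + l • η) * K3 η (L3 u l hl.ne' ξ) with hG
  have h1 : ∫ x, f x * K3 x ξ = ∫ x, K3 u ξ * G (l⁻¹ • (x - u)) := by
    refine integral_congr_ae (Eventually.of_forall fun x => ?_)
    show f x * K3 x ξ = K3 u ξ * G (l⁻¹ • (x - u))
    have e2 : u + l • (l⁻¹ • (x - u)) = x := by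
      rw [smul_smul, mul_inv_cancel₀ hl.ne', one_smul]; abel
    have e3 := K3_galilei u (l⁻¹ • (x - u)) l hl.ne' ξ
    rw [e2] at e3
    rw [hG]
    simp only
    rw [e2, e3]; ring
  rw [h1, integral_const_mul, integral_sub_right_eq_self (fun x => G (l⁻¹ • x)) u,
    Measure.integral_comp_inv_smul]
  simp only [finrank_euclideanSpace, Fintype.card_fin]
  rw [abs_of_pos (pow_pos hl 2), Complex.real_smul, mul_assoc]

/-- the scaling constant -/
noncomputable def cc (q : ℝ) (u : E 2) (l : ℝ) (hl : l ≠ 0) : ℝ≥0∞ :=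
  ENNReal.ofReal ((l ^ 2) ^ q) *
    ENNReal.ofReal |(LinearMap.det (L3 u l hl : E 3 →ₗ[ℝ] E 3))⁻¹|

theorem cc_ne_zero {q : ℝ} {u : E 2} {l : ℝ} (hl : 0 < l) : cc q u l hl.ne' ≠ 0 := by
  have hdet : LinearMap.det (L3 u l hl.ne' : E 3 →ₗ[ℝ] E 3) ≠ 0 :=
    (LinearEquiv.isUnit_det' (L3 u l hl.ne')).ne_zero
  unfold cc
  refine mul_ne_zero ?_ ?_
  · have : 0 < (l ^ 2) ^ q := by positivity
    simpa using this
  · simpa using hdet

theorem cc_ne_top {q : ℝ} {u : E 2} {l : ℝ} (hl : l ≠ 0) : cc q u l hl ≠ ∞ :=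
  ENNReal.mul_ne_top ENNReal.ofReal_ne_top ENNReal.ofReal_ne_top

theorem NN_resc {q : ℝ} (hq : 0 < q) {u : E 2} {l : ℝ} (hl : 0 < l) {f : E 2 → ℂ}
    (hf : Integrable fun x => f (u + l • x)) :
    NN q f = cc q u l hl.ne' * NN q (fun x => f (u + l • x)) := by
  set L := L3 u l hl.ne' with hL
  have hdet : LinearMap.det (L : E 3 →ₗ[ℝ] E 3) ≠ 0 := (LinearEquiv.isUnit_det' L).ne_zero
  have hmap : Measure.map (L : E 3 →ₗ[ℝ] E 3) (volume : Measure (E 3)) =
      ENNReal.ofReal |(LinearMap.det (L : E 3 →ₗ[ℝ] E 3))⁻¹| • (volume : Measure (E 3)) :=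
    Measure.map_linearMap_addHaar_eq_smul_addHaar _ hdet
  have hLm : Measurable (L : E 3 →ₗ[ℝ] E 3) :=
    (LinearMap.continuous_of_finiteDimensional _).measurable
  have hEm : Measurable (TT fun x => f (u + l • x)) := (TT_cont hf).measurable
  have h2 := lintegral_map (μ := (volume : Measure (E 3))) (hEm.enorm.pow_const q) hLm
  rw [hmap, lintegral_smul_measure] at h2
  have hl2 : 0 < l ^ 2 := by positivity
  have h3 : NN q f = ENNReal.ofReal ((l ^ 2) ^ q) *
      ∫⁻ ξ, ‖TT (fun x => f (u + l • x)) (L ξ)‖ₑ ^ q := by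
    unfold NN
    rw [← lintegral_const_mul' _ _ ENNReal.ofReal_ne_top]
    refine lintegral_congr fun ξ => ?_
    rw [TT_resc hl f ξ, enorm_mul, enorm_mul, ← ofReal_norm (K3 u ξ), K3_norm_eq,
      ENNReal.ofReal_one, one_mul, ← ofReal_norm ((l ^ 2 : ℝ) : ℂ), Complex.norm_real,
      Real.norm_of_nonneg hl2.le, ENNReal.mul_rpow_of_nonneg _ _ hq.le,
      ENNReal.ofReal_rpow_of_nonneg hl2.le hq.le]
  rw [h3, cc, mul_assoc]
  congr 1
  exact h2.symm

theorem L3_det_one (u : E 2) : LinearMap.det (L3 u 1 one_ne_zero : E 3 →ₗ[ℝ] E 3) = 1 := by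
  rw [← LinearMap.det_toMatrix (EuclideanSpace.basisFun (Fin 3) ℝ).toBasis, Matrix.det_fin_three]
  simp only [LinearMap.toMatrix_apply, OrthonormalBasis.coe_toBasis,
    EuclideanSpace.basisFun_apply, OrthonormalBasis.coe_toBasis_repr_apply,
    EuclideanSpace.basisFun_repr]
  have e : ∀ (ξ : E 3) (i : Fin 3), ((L3 u 1 one_ne_zero : E 3 →ₗ[ℝ] E 3) ξ) i =
      (![1 * (ξ 0 + 2 * ξ 2 * u 0), 1 * (ξ 1 + 2 * ξ 2 * u 1), 1 ^ 2 * ξ 2] : Fin 3 → ℝ) i :=
    fun ξ i => rfl
  simp only [e]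
  simp

/-- Galilean invariance -/
theorem NN_shift {q : ℝ} (hq : 0 < q) (u : E 2) {f : E 2 → ℂ} (hf : Integrable f) :
    NN q (fun x => f (x - u)) = NN q f := by
  have h1 : (fun x : E 2 => f (u + (1 : ℝ) • x - u)) = f := by
    funext x; congr 1; module
  have h := NN_resc hq (u := u) (l := 1) one_pos (f := fun x => f (x - u)) (by rw [h1]; exact hf)
  rw [h, h1, cc, L3_det_one]
  simp

theorem integrable_of_bdd {f : E 2 → ℂ} (hf : Measurable f) {M R : ℝ} (hM : ∀ x, ‖f x‖ ≤ M)
    (hR : ∀ x, x ∉ ball (0 : E 2) R → f x = 0) : Integrable f := by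
  have h1 : f = (ball (0 : E 2) R).indicator f := by
    funext x
    by_cases hx : x ∈ ball (0 : E 2) R
    · rw [indicator_of_mem hx]
    · rw [indicator_of_notMem hx, hR x hx]
  rw [h1, integrable_indicator_iff measurableSet_ball]
  have : IsFiniteMeasure (volume.restrict (ball (0 : E 2) R)) :=
    ⟨by rw [Measure.restrict_apply_univ]; exact measure_ball_lt_top⟩
  exact Integrable.of_bound hf.aestronglyMeasurable M (Eventually.of_forall hM)

/-- multiplication by a function with integrable Fourier transform -/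
theorem NN_mult {q : ℝ} (hq : 1 ≤ q) {h k : E 2 → ℂ} (hk : Continuous k) (hki : Integrable k)
    (hrep : ∀ x, h x = ∫ z, k z * Complex.exp ((2 * Real.pi * inner ℝ x z : ℝ) * Complex.I))
    {f : E 2 → ℂ} (hf : Integrable f) :
    NN q (fun x => h x * f x) ≤ (∫⁻ z, ‖k z‖ₑ) ^ q * NN q f := by
  have hq0 : 0 ≤ q := by linarith
  have hq1 : 0 < q := by linarith
  set A : ℝ≥0∞ := ∫⁻ z, ‖k z‖ₑ with hA
  have hAt : A ≠ ∞ := hki.2.ne
  have hTc : Continuous (TT f) := TT_cont hf
  have hkm : Measurable fun z => ‖k z‖ₑ := hk.measurable.enorm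
  have hKι : ∀ (x : E 2) (y : E 3) (z : E 2), K3 x (y + io z) = K3 x y * K3 x (io z) := by
    intro x y z
    unfold K3
    rw [← Complex.exp_add]
    congr 1
    rw [inner_add_right]
    push_cast
    ring
  have hTrep : ∀ y, TT (fun x => h x * f x) y = ∫ z, k z * TT f (y + io z) := fun y => by
    have e1 : TT (fun x => h x * f x) y =
        ∫ x, ∫ z, k z * (f x * K3 x (y + io z)) := by
      unfold TT
      refine integral_congr_ae (Eventually.of_forall fun x => ?_)
      show h x * f x * K3 x y = ∫ z, k z * (f x * K3 x (y + io z))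
      rw [hrep x, mul_assoc, ← integral_mul_const]
      refine integral_congr_ae (Eventually.of_forall fun z => ?_)
      show k z * Complex.exp ((2 * Real.pi * inner ℝ x z : ℝ) * Complex.I) * (f x * K3 x y) =
        k z * (f x * K3 x (y + io z))
      rw [hKι, K3_io]; ring
    rw [e1, integral_integral_swap]
    · refine integral_congr_ae (Eventually.of_forall fun z => ?_)
      show ∫ x, k z * (f x * K3 x (y + io z)) = k z * TT f (y + io z)
      rw [integral_const_mul]; rfl
    · have h0 : Integrable (fun p : E 2 × E 2 => f p.1 * k p.2) (volume.prod volume) :=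
        hf.mul_prod hki
      have hc : Continuous fun p : E 2 × E 2 => K3 p.1 (y + io p.2) :=
        K3_cont.comp ((continuous_fst).prodMk (continuous_const.add (io_cont.comp continuous_snd)))
      have h1 := h0.mul_bdd (c := 1) hc.aestronglyMeasurable
        (Eventually.of_forall fun p => K3_norm p.1 (y + io p.2))
      refine h1.congr (Eventually.of_forall fun p => ?_)
      show f p.1 * k p.2 * K3 p.1 (y + io p.2) = k p.2 * (f p.1 * K3 p.1 (y + io p.2))
      ring
  have hpt : ∀ y, ‖TT (fun x => h x * f x) y‖ₑ ^ q ≤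
      (∫⁻ z, ‖k z‖ₑ * ‖TT f (y + io z)‖ₑ ^ q) * A ^ (q - 1) := fun y => by
    have hm : Measurable fun z => TT f (y + io z) :=
      (hTc.comp (continuous_const.add io_cont)).measurable
    have h1 : ‖TT (fun x => h x * f x) y‖ₑ ≤ ∫⁻ z, ‖k z‖ₑ * ‖TT f (y + io z)‖ₑ := by
      rw [hTrep y]
      refine (enorm_integral_le_lintegral_enorm _).trans_eq ?_
      refine lintegral_congr fun z => ?_
      rw [enorm_mul]
    have h2 := jensen ((volume : Measure (E 2)).withDensity fun z => ‖k z‖ₑ) hq _ hm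
    rw [lintegral_withDensity_eq_lintegral_mul _ hkm hm.enorm,
      lintegral_withDensity_eq_lintegral_mul _ hkm (hm.enorm.pow_const q),
      withDensity_apply _ MeasurableSet.univ, setLIntegral_univ] at h2
    exact (ENNReal.rpow_le_rpow h1 hq0).trans h2
  have hmeas : Measurable fun p : E 3 × E 2 => ‖k p.2‖ₑ * ‖TT f (p.1 + io p.2)‖ₑ ^ q := by
    have h3 : Continuous fun p : E 3 × E 2 => TT f (p.1 + io p.2) :=
      hTc.comp (continuous_fst.add (io_cont.comp continuous_snd))
    exact ((hk.comp continuous_snd).measurable.enorm).mul (h3.measurable.enorm.pow_const q)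
  set B : ℝ≥0∞ := NN q f with hB
  have hA1 : A * A ^ (q - 1) = A ^ q := by
    rcases eq_or_ne A 0 with h0 | h0
    · rw [h0, zero_mul, ENNReal.zero_rpow_of_pos hq1]
    · conv_lhs => rw [← ENNReal.rpow_one A]
      rw [← ENNReal.rpow_mul, one_mul, ← ENNReal.rpow_add _ _ h0 hAt]
      congr 1; ring
  calc NN q (fun x => h x * f x)
      ≤ ∫⁻ y, (∫⁻ z, ‖k z‖ₑ * ‖TT f (y + io z)‖ₑ ^ q) * A ^ (q - 1) :=
        lintegral_mono fun y => hpt y
    _ = (∫⁻ y, ∫⁻ z, ‖k z‖ₑ * ‖TT f (y + io z)‖ₑ ^ q) * A ^ (q - 1) :=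
        lintegral_mul_const' _ _ (ENNReal.rpow_ne_top_of_nonneg (by linarith) hAt)
    _ = (∫⁻ z, ∫⁻ y, ‖k z‖ₑ * ‖TT f (y + io z)‖ₑ ^ q) * A ^ (q - 1) := by
        rw [lintegral_lintegral_swap hmeas.aemeasurable]
    _ = (∫⁻ z, ‖k z‖ₑ * B) * A ^ (q - 1) := by
        congr 1
        refine lintegral_congr fun z => ?_
        rw [lintegral_const_mul' _ _ enorm_ne_top,
          lintegral_add_right_eq_self (fun y => ‖TT f y‖ₑ ^ q) (io z)]
        rfl
    _ = (A * B) * A ^ (q - 1) := by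
        rw [lintegral_mul_const _ hkm]
    _ = A ^ q * B := by
        rw [← hA1]; ring

end Pool.Agent.H222.EX
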