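import Pool.Agent.H222.EX.Core

/-!
General facts: homogeneity, triangle inequality, limits, comparison of exponents.
-/

open MeasureTheory Set Filter Metric
open scoped ENNReal NNReal Topology

namespace Pool.Agent.H222.EX

open Pool.Agent.Helper184.PH Pool.Agent.Helper184.PH.P3

theorem NN_smul {q : ℝ} (hq : 0 ≤ q) (c : ℂ) (f : E 2 → ℂ) :
    NN q (fun x => c * f x) = ‖c‖ₑ ^ q * NN q f := by
  unfold NN
  rw [← lintegral_const_mul' _ _ (ENNReal.rpow_ne_top_of_nonneg hq enorm_ne_top)]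
  refine lintegral_congr fun ξ => ?_
  rw [TT_smul, enorm_mul, ENNReal.mul_rpow_of_nonneg _ _ hq]

theorem TT_meas {f : E 2 → ℂ} (hf : Integrable f) : Measurable fun ξ => ‖TT f ξ‖ₑ :=
  (TT_cont hf).measurable.enorm

/-- triangle inequality -/
theorem NN_add {q : ℝ} (hq : 1 ≤ q) {f g : E 2 → ℂ} (hf : Integrable f) (hg : Integrable g) :
    (NN q fun x => f x + g x) ^ (1 / q) ≤ NN q f ^ (1 / q) + NN q g ^ (1 / q) := by
  have h1 := ENNReal.lintegral_Lp_add_le (μ := (volume : Measure (E 3))) (p := q)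
    (TT_meas hf).aemeasurable (TT_meas hg).aemeasurable hq
  refine le_trans ?_ h1
  unfold NN
  refine ENNReal.rpow_le_rpow (lintegral_mono fun ξ => ?_) (by positivity)
  refine ENNReal.rpow_le_rpow ?_ (by linarith)
  rw [TT_add hf hg]
  exact enorm_add_le _ _

theorem NN_add' {q : ℝ} (hq : 1 ≤ q) {f g : E 2 → ℂ} (hf : Integrable f) (hg : Integrable g) :
    (NN q fun x => f x + g x) ≤ 2 ^ (q - 1) * (NN q f + NN q g) := by
  have h0 : Measurable fun ξ => ‖TT f ξ‖ₑ ^ q := (TT_meas hf).pow_const q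
  unfold NN
  rw [← lintegral_add_left h0, ← lintegral_const_mul' _ _ (by simp)]
  refine lintegral_mono fun ξ => ?_
  refine le_trans ?_ (ENNReal.rpow_add_le_mul_rpow_add_rpow _ _ hq)
  refine ENNReal.rpow_le_rpow ?_ (by linarith)
  rw [TT_add hf hg]
  exact enorm_add_le _ _

theorem NN_congr {q : ℝ} {f g : E 2 → ℂ} (h : f =ᵐ[volume] g) : NN q f = NN q g := by
  have h1 : TT f = TT g := by
    funext ξ
    refine integral_congr_ae ?_
    filter_upwards [h] with x hx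
    rw [hx]
  unfold NN
  rw [h1]

/-- passage to the limit -/
theorem NN_fatou {q : ℝ} (hq : 0 ≤ q) {F : ℕ → E 2 → ℂ} {G : E 2 → ℂ}
    (hF : ∀ n, Integrable (F n)) (h : ∀ ξ, Tendsto (fun n => TT (F n) ξ) atTop (𝓝 (TT G ξ)))
    {C : ℝ≥0∞} (hC : ∀ n, NN q (F n) ≤ C) : NN q G ≤ C := by
  have h1 : ∀ ξ, Tendsto (fun n => ‖TT (F n) ξ‖ₑ ^ q) atTop (𝓝 (‖TT G ξ‖ₑ ^ q)) := fun ξ =>
    ((ENNReal.continuous_rpow_const (y := q)).tendsto _).comp
      ((continuous_enorm.tendsto _).comp (h ξ))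
  unfold NN
  calc ∫⁻ ξ, ‖TT G ξ‖ₑ ^ q = ∫⁻ ξ, liminf (fun n => ‖TT (F n) ξ‖ₑ ^ q) atTop :=
        lintegral_congr fun ξ => (h1 ξ).liminf_eq.symm
    _ ≤ liminf (fun n => ∫⁻ ξ, ‖TT (F n) ξ‖ₑ ^ q) atTop :=
        lintegral_liminf_le fun n => (TT_meas (hF n)).pow_const q
    _ ≤ C := by
        refine liminf_le_of_le ?_ fun b hb => ?_
        · isBoundedDefault
        · obtain ⟨n, hn⟩ := hb.exists
          exact hn.trans (hC n)

/-- limits in `L¹` -/
theorem NN_lim {q : ℝ} (hq : 0 ≤ q) {F : ℕ → E 2 → ℂ} {G : E 2 → ℂ}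
    (hF : ∀ n, Integrable (F n)) (hG : Integrable G)
    (h : Tendsto (fun n => ∫⁻ x, ‖F n x - G x‖ₑ) atTop (𝓝 0))
    {C : ℝ≥0∞} (hC : ∀ n, NN q (F n) ≤ C) : NN q G ≤ C := by
  refine NN_fatou hq hF (fun ξ => ?_) hC
  rw [tendsto_iff_edist_tendsto_0]
  refine tendsto_of_tendsto_of_tendsto_of_le_of_le tendsto_const_nhds h (fun n => bot_le)
    fun n => ?_
  show edist (TT (F n) ξ) (TT G ξ) ≤ ∫⁻ x, ‖F n x - G x‖ₑ
  rw [edist_eq_enorm_sub, ← TT_sub (hF n) hG]
  exact TT_le _ _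

/-- comparison of exponents -/
theorem NN_exp {q q₁ : ℝ} (hq : 0 ≤ q₁) (h : q₁ ≤ q) (f : E 2 → ℂ) {A : ℝ≥0∞}
    (hA : ∫⁻ x, ‖f x‖ₑ ≤ A) : NN q f ≤ A ^ (q - q₁) * NN q₁ f := by
  rcases eq_or_ne A ∞ with hAt | hAt
  · rcases eq_or_lt_of_le h with h1 | h1
    · rw [h1, sub_self, ENNReal.rpow_zero, one_mul]
    · rw [hAt, ENNReal.top_rpow_of_pos (by linarith)]
      rcases eq_or_ne (NN q₁ f) 0 with h2 | h2
      · rcases eq_or_lt_of_le hq with h3 | h3
        · exfalso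
          unfold NN at h2
          rw [← h3] at h2
          simp at h2
        · have h4 : NN q f = ∫⁻ ξ, ‖TT f ξ‖ₑ ^ (q - q₁) * ‖TT f ξ‖ₑ ^ q₁ := by
            unfold NN
            refine lintegral_congr fun ξ => ?_
            rw [← ENNReal.rpow_add_of_nonneg _ _ (by linarith) hq]
            congr 1; ring
          rw [h2, mul_zero, nonpos_iff_eq_zero]
          by_cases hfi : Integrable f
          · have h5 : (fun ξ => ‖TT f ξ‖ₑ ^ q₁) =ᵐ[volume] 0 :=
              (lintegral_eq_zero_iff ((TT_meas hfi).pow_const q₁)).1 h2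
            rw [h4]
            refine (lintegral_congr_ae ?_).trans lintegral_zero
            filter_upwards [h5] with ξ hξ
            show ‖TT f ξ‖ₑ ^ (q - q₁) * ‖TT f ξ‖ₑ ^ q₁ = 0
            rw [show ‖TT f ξ‖ₑ ^ q₁ = 0 from hξ, mul_zero]
          · have h6 : ∀ ξ, TT f ξ = 0 := fun ξ => by
              unfold TT
              refine integral_undef fun hc => hfi ?_
              have h7 := hc.mul_bdd (c := 1) (g := fun x => (starRingEnd ℂ) (K3 x ξ))
                ((Complex.continuous_conj.comp (K3_cont_left ξ)).aestronglyMeasurable)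
                (Eventually.of_forall fun x => by
                  rw [RCLike.norm_conj]; exact K3_norm x ξ)
              refine h7.congr (Eventually.of_forall fun x => ?_)
              show f x * K3 x ξ * (starRingEnd ℂ) (K3 x ξ) = f x
              rw [mul_assoc, Complex.mul_conj, Complex.normSq_eq_norm_sq, K3_norm_eq]
              simp
            unfold NN
            simp [h6, ENNReal.zero_rpow_of_pos (h3.trans_le h)]
      · rw [ENNReal.top_mul h2]; exact le_top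
  · unfold NN
    rw [← lintegral_const_mul' _ _ (ENNReal.rpow_ne_top_of_nonneg (by linarith) hAt)]
    refine lintegral_mono fun ξ => ?_
    have h1 : ‖TT f ξ‖ₑ ^ q = ‖TT f ξ‖ₑ ^ (q - q₁) * ‖TT f ξ‖ₑ ^ q₁ := by
      rw [← ENNReal.rpow_add_of_nonneg _ _ (by linarith) hq]
      congr 1; ring
    rw [h1]
    gcongr
    exact (TT_le f ξ).trans hA

/-- the estimate for bounded functions supported in `O` -/
def LI (O : Set (E 2)) (q : ℝ) : Prop :=
  ∃ C : ℝ≥0, ∀ f : E 2 → ℂ, Measurable f → (∀ x, ‖f x‖ ≤ 1) → (∀ x, x ∉ O → f x = 0) →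
    NN q f ≤ C

theorem lint_le {f : E 2 → ℂ} (hf1 : ∀ x, ‖f x‖ ≤ 1) {O : Set (E 2)}
    (hO : MeasurableSet O) (h : ∀ x, x ∉ O → f x = 0) : ∫⁻ x, ‖f x‖ₑ ≤ volume O := by
  have h1 : ∀ x, ‖f x‖ₑ ≤ O.indicator (fun _ => (1 : ℝ≥0∞)) x := fun x => by
    by_cases hx : x ∈ O
    · rw [indicator_of_mem hx, ← ofReal_norm, ← ENNReal.ofReal_one]
      exact ENNReal.ofReal_le_ofReal (hf1 x)
    · rw [h x hx]; simp
  refine (lintegral_mono h1).trans_eq ?_
  rw [lintegral_indicator hO, setLIntegral_one]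

theorem LI_exp {q q₁ : ℝ} (hq : 0 ≤ q₁) (h : q₁ ≤ q) {R : ℝ} (hL : LI (ball 0 R) q₁) :
    LI (ball 0 R) q := by
  obtain ⟨C, hC⟩ := hL
  have ht : volume (ball (0 : E 2) R) ^ (q - q₁) * C ≠ ∞ :=
    ENNReal.mul_ne_top (ENNReal.rpow_ne_top_of_nonneg (by linarith) measure_ball_lt_top.ne)
      ENNReal.coe_ne_top
  refine ⟨(volume (ball (0 : E 2) R) ^ (q - q₁) * C).toNNReal, fun f hf hf1 hfO => ?_⟩
  rw [ENNReal.coe_toNNReal ht]
  refine (NN_exp hq h f (lint_le hf1 measurableSet_ball hfO)).trans ?_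
  gcongr
  exact hC f hf hf1 hfO

theorem LI_resc {q : ℝ} (hq : 0 < q) {R : ℝ} {O : Set (E 2)} (u : E 2) {r : ℝ} (hr : 0 < r)
    (hR : 0 < R) (hO : O ⊆ ball u R) (hL : LI (ball 0 r) q) : LI O q := by
  obtain ⟨C, hC⟩ := hL
  have hl : 0 < R / r := by positivity
  have ht : cc q u (R / r) hl.ne' * C ≠ ∞ :=
    ENNReal.mul_ne_top (cc_ne_top _) ENNReal.coe_ne_top
  refine ⟨(cc q u (R / r) hl.ne' * C).toNNReal, fun f hf hf1 hfO => ?_⟩
  rw [ENNReal.coe_toNNReal ht]
  have hm : Measurable fun x : E 2 => f (u + (R / r) • x) :=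
    hf.comp (by fun_prop : Continuous fun x : E 2 => u + (R / r) • x).measurable
  have h0 : ∀ x : E 2, x ∉ ball (0 : E 2) r → f (u + (R / r) • x) = 0 := fun x hx => by
    apply hfO
    intro hc
    have h1 := hO hc
    rw [mem_ball, dist_eq_norm, add_sub_cancel_left, norm_smul, Real.norm_of_nonneg hl.le] at h1
    apply hx
    rw [mem_ball_zero_iff]
    rw [div_mul_eq_mul_div, div_lt_iff₀ hr] at h1
    nlinarith [norm_nonneg x]
  rw [NN_resc hq hl (integrable_of_bdd hm (fun x => hf1 _) h0)]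
  gcongr
  exact hC _ hm (fun x => hf1 _) h0

end Pool.Agent.H222.EX
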