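import Pool.Agent.H222.EX.Gen

/-!
Greedy superposition of translates.
-/

open MeasureTheory Set Filter Metric
open scoped ENNReal NNReal Topology

namespace Pool.Agent.H222.EX

open Pool.Agent.Helper184.PH Pool.Agent.Helper184.PH.P3

theorem two_point {q : ℝ} (hq : 2 ≤ q) (w z : ℂ) :
    2 * (‖w‖ₑ ^ q + ‖z‖ₑ ^ q) ≤ ‖w + z‖ₑ ^ q + ‖w - z‖ₑ ^ q := by
  have hp : 1 ≤ q / 2 := by linarith
  have hpar : ‖w + z‖₊ ^ 2 + ‖w - z‖₊ ^ 2 = 2 * (‖w‖₊ ^ 2 + ‖z‖₊ ^ 2) := by
    apply NNReal.coe_injective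
    push_cast
    have := parallelogram_law_with_norm ℝ w z
    nlinarith
  have h1 : (‖w‖₊ ^ 2) ^ (q / 2) + (‖z‖₊ ^ 2) ^ (q / 2) ≤ (‖w‖₊ ^ 2 + ‖z‖₊ ^ 2) ^ (q / 2) :=
    NNReal.add_rpow_le_rpow_add _ _ hp
  have h2 : (‖w‖₊ ^ 2 + ‖z‖₊ ^ 2) ^ (q / 2) ≤
      (1 / 2) * (‖w + z‖₊ ^ 2) ^ (q / 2) + (1 / 2) * (‖w - z‖₊ ^ 2) ^ (q / 2) := by
    have h3 := NNReal.rpow_arith_mean_le_arith_mean2_rpow (1 / 2) (1 / 2) (‖w + z‖₊ ^ 2)
      (‖w - z‖₊ ^ 2) (by rw [← two_mul]; norm_num) hp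
    rw [← mul_add, hpar, ← mul_assoc] at h3
    norm_num at h3
    norm_num
    exact h3
  have h4 : ∀ a : ℝ≥0, (a ^ 2) ^ (q / 2) = a ^ q := fun a => by
    rw [← NNReal.rpow_natCast, ← NNReal.rpow_mul]
    congr 1
    push_cast
    ring
  rw [h4, h4] at h1
  rw [h4, h4] at h2
  have h5 : 2 * (‖w‖₊ ^ q + ‖z‖₊ ^ q) ≤ ‖w + z‖₊ ^ q + ‖w - z‖₊ ^ q := by
    have h6 := h1.trans h2
    have h7 : (2 : ℝ≥0) * (‖w‖₊ ^ q + ‖z‖₊ ^ q) ≤
        2 * ((1 / 2) * ‖w + z‖₊ ^ q + (1 / 2) * ‖w - z‖₊ ^ q) := by gcongr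
    refine h7.trans_eq ?_
    ring
  have hq0 : 0 ≤ q := by linarith
  simp only [enorm_eq_nnnorm]
  rw [← ENNReal.coe_rpow_of_nonneg _ hq0, ← ENNReal.coe_rpow_of_nonneg _ hq0,
    ← ENNReal.coe_rpow_of_nonneg _ hq0, ← ENNReal.coe_rpow_of_nonneg _ hq0]
  exact_mod_cast h5

theorem sign_step {q : ℝ} (hq : 2 ≤ q) {f g : E 2 → ℂ} (hf : Integrable f) (hg : Integrable g) :
    NN q f + NN q g ≤ NN q (fun x => f x + g x) ∨ NN q f + NN q g ≤ NN q (fun x => f x - g x) := by
  by_contra hc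
  push Not at hc
  obtain ⟨h1, h2⟩ := hc
  have h3 : 2 * (NN q f + NN q g) ≤ NN q (fun x => f x + g x) + NN q (fun x => f x - g x) := by
    have hfg : Integrable fun x => f x + g x := hf.add hg
    unfold NN
    rw [← lintegral_add_left ((TT_meas hf).pow_const q),
      ← lintegral_add_left ((TT_meas hfg).pow_const q),
      ← lintegral_const_mul' _ _ (by simp)]
    refine lintegral_mono fun ξ => ?_
    rw [TT_add hf hg ξ, TT_sub hf hg ξ]
    exact two_point hq _ _
  rw [two_mul] at h3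
  exact absurd (ENNReal.add_lt_add h1 h2) (not_lt.2 h3)

theorem exists_shift {A : Set (E 2)} (hA : MeasurableSet A) {g : E 2 → ℝ≥0∞}
    (hg : Measurable g) : ∃ v ∈ ball (0 : E 2) 1,
      ∫⁻ x, g x * A.indicator (fun _ => 1) (x - v) ≤
        (volume (ball (0 : E 2) 1))⁻¹ * volume A * ∫⁻ x, g x := by
  have hb0 : volume (ball (0 : E 2) 1) ≠ 0 := (measure_ball_pos _ _ one_pos).ne'
  have hbt : volume (ball (0 : E 2) 1) ≠ ∞ := measure_ball_lt_top.ne
  have hm : Measurable fun p : E 2 × E 2 => g p.2 * A.indicator (fun _ => (1 : ℝ≥0∞)) (p.2 - p.1) := by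
    refine (hg.comp measurable_snd).mul ?_
    exact (measurable_const.indicator hA).comp (measurable_snd.sub measurable_fst)
  have hm2 : Measurable fun v => ∫⁻ x, g x * A.indicator (fun _ => (1 : ℝ≥0∞)) (x - v) :=
    hm.lintegral_prod_right'
  obtain ⟨v, hv, hle⟩ := exists_le_setLAverage hb0 hbt hm2.aemeasurable.restrict
  refine ⟨v, hv, hle.trans ?_⟩
  rw [setLAverage_eq, ENNReal.div_eq_inv_mul, mul_assoc]
  gcongr
  calc ∫⁻ v in ball (0 : E 2) 1, ∫⁻ x, g x * A.indicator (fun _ => (1 : ℝ≥0∞)) (x - v)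
      ≤ ∫⁻ v, ∫⁻ x, g x * A.indicator (fun _ => (1 : ℝ≥0∞)) (x - v) :=
        setLIntegral_le_lintegral _ _
    _ = ∫⁻ x, ∫⁻ v, g x * A.indicator (fun _ => (1 : ℝ≥0∞)) (x - v) :=
        lintegral_lintegral_swap hm.aemeasurable
    _ = ∫⁻ x, g x * volume A := by
        refine lintegral_congr fun x => ?_
        have hm3 : Measurable fun v : E 2 => A.indicator (fun _ => (1 : ℝ≥0∞)) (x - v) :=
          (measurable_const.indicator hA).comp (measurable_id.const_sub x)
        rw [lintegral_const_mul _ hm3]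
        congr 1
        rw [lintegral_sub_left_eq_self (fun y => A.indicator (fun _ => (1 : ℝ≥0∞)) y) x,
          lintegral_indicator hA, setLIntegral_one]
    _ = volume A * ∫⁻ x, g x := by
        rw [lintegral_mul_const _ hg, mul_comm]

theorem greedy {q : ℝ} (hq : 2 ≤ q) {A : Set (E 2)} (hA : MeasurableSet A)
    (hAb : A ⊆ ball (0 : E 2) 1) {f : E 2 → ℂ} (hf : Measurable f) (hf1 : ∀ x, ‖f x‖ ≤ 1)
    (hfA : ∀ x, x ∉ A → f x = 0) {t : ℝ≥0} (K : ℕ) :
    ∃ (F : E 2 → ℂ) (N : E 2 → ℕ), Measurable F ∧ Measurable N ∧ (∀ x, ‖F x‖ ≤ N x) ∧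
      (∀ x, N x ≤ K) ∧ (∀ x, x ∉ ball (0 : E 2) 2 → N x = 0) ∧
      (∫⁻ x in ball (0 : E 2) 2, (t : ℝ≥0∞) ^ (N x)) ≤
        (1 + t * ((volume (ball (0 : E 2) 1))⁻¹ * volume A)) ^ K * volume (ball (0 : E 2) 2) ∧
      K * NN q f ≤ NN q F := by
  have hfi : Integrable f := integrable_of_bdd hf hf1 fun x hx => hfA x fun h => hx (hAb h)
  induction K with
  | zero =>
    refine ⟨fun _ => 0, fun _ => 0, measurable_const, measurable_const, fun x => by simp,
      fun x => le_rfl, fun x _ => rfl, by simp, by simp⟩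
  | succ K ih =>
    obtain ⟨F, N, hF, hN, hFN, hNK, hN0, hint, hKF⟩ := ih
    have hgm : Measurable ((ball (0 : E 2) 2).indicator fun x => (t : ℝ≥0∞) ^ (N x)) := by
      refine Measurable.indicator ?_ measurableSet_ball
      exact (measurable_from_nat (f := fun n : ℕ => (t : ℝ≥0∞) ^ n)).comp hN
    obtain ⟨v, hv, hle⟩ := exists_shift hA hgm
    have hFi : Integrable F := integrable_of_bdd hF (M := K) (R := 2)
      (fun x => (hFN x).trans (by exact_mod_cast hNK x)) fun x hx => by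
        have h1 := hFN x
        rw [hN0 x hx] at h1
        simpa using h1
    have hgi : Integrable fun x => f (x - v) := hfi.comp_sub_right v
    have hsh : Measurable fun x : E 2 => x - v := measurable_id.sub_const v
    have hgm' : Measurable fun x => f (x - v) := hf.comp hsh
    obtain ⟨G, hGm, hGb, hGN⟩ : ∃ G : E 2 → ℂ, Measurable G ∧
        (∀ x, ‖G x‖ ≤ ‖F x‖ + ‖f (x - v)‖) ∧ NN q F + NN q f ≤ NN q G := by
      rcases sign_step hq hFi hgi with h | h
      · rw [NN_shift (by linarith) v hfi] at h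
        exact ⟨_, hF.add hgm', fun x => norm_add_le _ _, h⟩
      · rw [NN_shift (by linarith) v hfi] at h
        exact ⟨_, hF.sub hgm', fun x => norm_sub_le _ _, h⟩
    set N' : E 2 → ℕ := fun x => N x + A.indicator (fun _ => 1) (x - v) with hN'
    have hN'm : Measurable N' := hN.add ((measurable_const.indicator hA).comp hsh)
    refine ⟨G, N', hGm, hN'm, fun x => ?_, fun x => ?_, fun x hx => ?_, ?_, ?_⟩
    · refine (hGb x).trans ?_
      rw [hN']
      push_cast
      refine add_le_add (hFN x) ?_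
      by_cases hx : x - v ∈ A
      · rw [indicator_of_mem hx]; simpa using hf1 (x - v)
      · rw [indicator_of_notMem hx, hfA _ hx]; simp
    · rw [hN']
      refine add_le_add (hNK x) ?_
      by_cases hx : x - v ∈ A
      · rw [indicator_of_mem hx]
      · rw [indicator_of_notMem hx]; exact zero_le_one
    · rw [hN']
      simp only
      rw [hN0 x hx, indicator_of_notMem, add_zero]
      intro hc
      have h1 := hAb hc
      rw [mem_ball_zero_iff] at h1 hx hv
      apply hx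
      calc ‖x‖ = ‖(x - v) + v‖ := by rw [sub_add_cancel]
        _ ≤ ‖x - v‖ + ‖v‖ := norm_add_le _ _
        _ < 2 := by linarith
    · have e1 : ∀ x, (t : ℝ≥0∞) ^ (N' x) ≤ (t : ℝ≥0∞) ^ (N x) +
          t * ((t : ℝ≥0∞) ^ (N x) * A.indicator (fun _ => 1) (x - v)) := fun x => by
        rw [hN']
        simp only
        by_cases hx : x - v ∈ A
        · rw [indicator_of_mem hx, indicator_of_mem hx, pow_succ, mul_one, mul_comm]
          exact le_add_self
        · rw [indicator_of_notMem hx, indicator_of_notMem hx, add_zero, mul_zero, mul_zero,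
            add_zero]
      have htN : Measurable fun x => (t : ℝ≥0∞) ^ (N x) :=
        (measurable_from_nat (f := fun n : ℕ => (t : ℝ≥0∞) ^ n)).comp hN
      have e2 : (∫⁻ x in ball (0 : E 2) 2, (t : ℝ≥0∞) ^ (N x) * A.indicator (fun _ => 1) (x - v)) =
          ∫⁻ x, (ball (0 : E 2) 2).indicator (fun x => (t : ℝ≥0∞) ^ (N x)) x *
            A.indicator (fun _ => 1) (x - v) := by
        rw [← lintegral_indicator measurableSet_ball]
        refine lintegral_congr fun x => ?_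
        by_cases hx : x ∈ ball (0 : E 2) 2
        · rw [indicator_of_mem hx, indicator_of_mem hx]
        · rw [indicator_of_notMem hx, indicator_of_notMem hx, zero_mul]
      rw [lintegral_indicator measurableSet_ball] at hle
      calc ∫⁻ x in ball (0 : E 2) 2, (t : ℝ≥0∞) ^ (N' x)
          ≤ ∫⁻ x in ball (0 : E 2) 2, ((t : ℝ≥0∞) ^ (N x) +
              t * ((t : ℝ≥0∞) ^ (N x) * A.indicator (fun _ => 1) (x - v))) :=
            lintegral_mono fun x => e1 x
        _ = (∫⁻ x in ball (0 : E 2) 2, (t : ℝ≥0∞) ^ (N x)) +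
              t * ∫⁻ x in ball (0 : E 2) 2, (t : ℝ≥0∞) ^ (N x) *
                A.indicator (fun _ => 1) (x - v) := by
            rw [lintegral_add_left htN, lintegral_const_mul' _ _ ENNReal.coe_ne_top]
        _ ≤ (∫⁻ x in ball (0 : E 2) 2, (t : ℝ≥0∞) ^ (N x)) +
              t * ((volume (ball (0 : E 2) 1))⁻¹ * volume A *
                ∫⁻ x in ball (0 : E 2) 2, (t : ℝ≥0∞) ^ (N x)) := by
            rw [e2]; gcongr
        _ = (1 + t * ((volume (ball (0 : E 2) 1))⁻¹ * volume A)) *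
              ∫⁻ x in ball (0 : E 2) 2, (t : ℝ≥0∞) ^ (N x) := by ring
        _ ≤ (1 + t * ((volume (ball (0 : E 2) 1))⁻¹ * volume A)) *
              ((1 + t * ((volume (ball (0 : E 2) 1))⁻¹ * volume A)) ^ K *
                volume (ball (0 : E 2) 2)) := by gcongr
        _ = _ := by rw [pow_succ]; ring
    · refine le_trans ?_ hGN
      push_cast
      rw [add_mul, one_mul]
      gcongr

end Pool.Agent.H222.EX
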