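import Pool.Agent.H222.EX.Smooth

/-!
One smooth phase that contains a sequence of phases.
-/

open MeasureTheory Set Filter Metric
open scoped ENNReal NNReal Topology ContDiff

namespace Pool.Agent.H222.EX

open Pool.Agent.Helper184.PH Pool.Agent.Helper184.PH.P3

theorem bdd_derivs {f : E 2 → ℝ} (hf : ContDiff ℝ ∞ f) (hc : HasCompactSupport f) (m : ℕ) :
    ∃ B : ℝ, 1 ≤ B ∧ ∀ k ≤ m, ∀ x, ‖iteratedFDeriv ℝ k f x‖ ≤ B := by
  have h1 : ∀ k : ℕ, ∃ B : ℝ, 0 ≤ B ∧ ∀ x, ‖iteratedFDeriv ℝ k f x‖ ≤ B := fun k => by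
    obtain ⟨B, hB⟩ := (hf.continuous_iteratedFDeriv
      (m := k) (by exact_mod_cast le_top)).bounded_above_of_compact_support
      (hc.iteratedFDeriv (𝕜 := ℝ) k)
    exact ⟨B, (norm_nonneg _).trans (hB 0), hB⟩
  choose B hB0 hB using h1
  refine ⟨1 + ∑ k ∈ Finset.range (m + 1), B k, ?_, fun k hk x => ?_⟩
  · have : 0 ≤ ∑ k ∈ Finset.range (m + 1), B k := Finset.sum_nonneg fun k _ => hB0 k
    linarith
  · have h1 : B k ≤ ∑ k ∈ Finset.range (m + 1), B k :=
      Finset.single_le_sum (fun k _ => hB0 k) (Finset.mem_range.2 (by omega))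
    linarith [hB k x]

theorem inv_summable {f : ℕ → E 2 → ℝ} (hf : ∀ j, ContDiff ℝ ∞ (f j))
    (hc : ∀ j, HasCompactSupport (f j)) {S : Set ℝ} (hS : ¬ BddAbove S) :
    ∃ R : ℕ → ℝ, (∀ j, 0 < R j) ∧ (∀ j, R j ∈ S) ∧
      ContDiff ℝ ∞ (fun x => ∑' j, (R j)⁻¹ * f j x) := by
  choose B hB1 hB using fun j => bdd_derivs (hf j) (hc j) j
  have hBp : ∀ j, 0 < B j := fun j => by linarith [hB1 j]
  have hex : ∀ j : ℕ, ∃ R ∈ S, 2 ^ j * B j < R := fun j => by
    by_contra h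
    push Not at h
    exact hS ⟨_, fun R hR => h R hR⟩
  choose R hRS hR using hex
  have hR0 : ∀ j, 0 < R j := fun j => lt_trans (by have := hBp j; positivity) (hR j)
  refine ⟨R, hR0, hRS, ?_⟩
  have hv : Summable fun j : ℕ => ((1 : ℝ) / 2) ^ j := summable_geometric_two
  refine contDiff_tsum_of_eventually (N := (⊤ : ℕ∞)) (v := fun _ j => (1 / 2) ^ j)
    (fun j => contDiff_const.mul (hf j)) (fun _ _ => hv) fun k _ => ?_
  rw [Nat.cofinite_eq_atTop]
  filter_upwards [eventually_ge_atTop k] with j hj x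
  have h0 : 0 ≤ (R j)⁻¹ := inv_nonneg.2 (hR0 j).le
  have h1 : (fun x => (R j)⁻¹ * f j x) = (R j)⁻¹ • f j := rfl
  rw [h1, iteratedFDeriv_const_smul_apply
    (((hf j).of_le (by exact_mod_cast le_top)).contDiffAt), norm_smul, Real.norm_of_nonneg h0]
  have h2 := hB j k hj x
  rw [inv_mul_le_iff₀ (hR0 j)]
  refine h2.trans ?_
  have h3 : (2 : ℝ) ^ j * (1 / 2) ^ j = 1 := by rw [← mul_pow]; norm_num
  calc B j = (2 ^ j * B j) * (1 / 2) ^ j := by linear_combination (-(B j)) * h3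
    _ ≤ R j * (1 / 2) ^ j := by
        have := (hR j).le
        gcongr

/-- centres -/
noncomputable def cen (c : E 2) (r : ℝ) (j : ℕ) : E 2 :=
  c + (r / 2 * (1 / 4) ^ j) • EuclideanSpace.single (0 : Fin 2) (1 : ℝ)

/-- radii -/
noncomputable def rad (r : ℝ) (j : ℕ) : ℝ := r / 16 * (1 / 4) ^ j

theorem rad_pos {r : ℝ} (hr : 0 < r) (j : ℕ) : 0 < rad r j := by unfold rad; positivity

theorem cen_near {c : E 2} {r : ℝ} (hr : 0 < r) {j : ℕ} {x : E 2}
    (hx : ‖x - cen c r j‖ < 2 * rad r j) : ‖x - c‖ ≤ 5 / 8 * r := by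
  have h1 : x - c = (x - cen c r j) + (r / 2 * (1 / 4) ^ j) •
      EuclideanSpace.single (0 : Fin 2) (1 : ℝ) := by
    unfold cen; abel
  have h2 : ((1 : ℝ) / 4) ^ j ≤ 1 := pow_le_one₀ (by norm_num) (by norm_num)
  have h3 : (0 : ℝ) < (1 / 4) ^ j := by positivity
  rw [h1]
  refine (norm_add_le _ _).trans ?_
  rw [norm_smul, Real.norm_of_nonneg (by positivity)]
  simp only [PiLp.norm_single, norm_one, mul_one]
  unfold rad at hx
  nlinarith

theorem cen_disj {c : E 2} {r : ℝ} (hr : 0 < r) {j k : ℕ} {x : E 2}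
    (hx : ‖x - cen c r j‖ < 2 * rad r j) (hy : ‖x - cen c r k‖ < 2 * rad r k) : j = k := by
  have key : ∀ j k : ℕ, j < k → ‖x - cen c r j‖ < 2 * rad r j → ‖x - cen c r k‖ < 2 * rad r k →
      False := by
    intro j k hjk hx hy
    have h1 : ‖cen c r j - cen c r k‖ = r / 2 * |(1 / 4) ^ j - (1 / 4) ^ k| := by
      have e1 : cen c r j - cen c r k = (r / 2 * ((1 / 4) ^ j - (1 / 4) ^ k)) •
          EuclideanSpace.single (0 : Fin 2) (1 : ℝ) := by
        unfold cen; module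
      rw [e1, norm_smul, Real.norm_eq_abs, abs_mul, abs_of_pos (by positivity : 0 < r / 2)]
      simp
    have h2 : ‖cen c r j - cen c r k‖ < 2 * rad r j + 2 * rad r k := by
      have e1 : cen c r j - cen c r k = (x - cen c r k) - (x - cen c r j) := by abel
      rw [e1]
      refine (norm_sub_le _ _).trans_lt ?_
      linarith
    have h3 : ((1 : ℝ) / 4) ^ k ≤ (1 / 4) ^ (j + 1) :=
      pow_le_pow_of_le_one (by norm_num) (by norm_num) hjk
    rw [pow_succ] at h3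
    have h4 : (0 : ℝ) < (1 / 4) ^ j := by positivity
    have h5 : (1 / 4 : ℝ) ^ j - (1 / 4) ^ k ≤ |(1 / 4) ^ j - (1 / 4) ^ k| := le_abs_self _
    rw [h1] at h2
    unfold rad at h2
    nlinarith
  rcases lt_trichotomy j k with h | h | h
  · exact (key j k h hx hy).elim
  · exact h
  · exact (key k j h hy hx).elim

/-- one phase that contains all phases of a sequence -/
theorem phase_exists {O : Set (E 2)} (hO : IsOpen O) (hne : O.Nonempty) {S : Set ℝ}
    (hS : ¬ BddAbove S) : ∃ (c : ℕ → E 2) (ρ : ℕ → ℝ), (∀ j, 0 < ρ j) ∧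
      (∀ j, ball (c j) (ρ j) ⊆ O) ∧ ∀ θ : ℕ → E 2 → ℝ, (∀ j, ContDiff ℝ ∞ (θ j)) →
      ∃ (φ : E 2 → ℝ) (R : ℕ → ℝ), ContDiff ℝ ∞ φ ∧ HasCompactSupport φ ∧ tsupport φ ⊆ O ∧
        (∀ j, R j ∈ S) ∧ ∀ j, ∀ y ∈ ball (0 : E 2) 1, R j * φ (c j + ρ j • y) = θ j y := by
  obtain ⟨c, hc⟩ := hne
  obtain ⟨r, hr, hball⟩ := Metric.isOpen_iff.1 hO c hc
  have hρ := rad_pos hr
  refine ⟨cen c r, rad r, hρ, fun j x hx => ?_, fun θ hθ => ?_⟩
  · apply hball
    rw [mem_ball, dist_eq_norm] at hx ⊢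
    have h1 := cen_near (c := c) hr (j := j) (x := x) (by have := hρ j; linarith)
    linarith
  -- the cutoff
  let κ : ContDiffBump (0 : E 2) := ⟨1, 2, one_pos, by norm_num⟩
  set f : ℕ → E 2 → ℝ := fun j x => κ ((rad r j)⁻¹ • (x - cen c r j)) *
    θ j ((rad r j)⁻¹ • (x - cen c r j)) with hf
  have haff : ∀ j, ContDiff ℝ ∞ fun x : E 2 => (rad r j)⁻¹ • (x - cen c r j) := fun j =>
    (contDiff_id.sub contDiff_const).const_smul _
  have hfs : ∀ j, ContDiff ℝ ∞ (f j) := fun j =>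
    (κ.contDiff.comp (haff j)).mul ((hθ j).comp (haff j))
  have hf0 : ∀ j x, 2 * rad r j ≤ ‖x - cen c r j‖ → f j x = 0 := fun j x hx => by
    rw [hf]
    have h1 : κ ((rad r j)⁻¹ • (x - cen c r j)) = 0 := by
      apply κ.zero_of_le_dist
      rw [dist_zero_right, norm_smul, norm_inv, Real.norm_of_nonneg (hρ j).le,
        le_inv_mul_iff₀ (hρ j)]
      show rad r j * 2 ≤ _
      linarith
    simp only [h1, zero_mul]
  have hfc : ∀ j, HasCompactSupport (f j) := fun j =>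
    HasCompactSupport.intro (isCompact_closedBall (cen c r j) (2 * rad r j)) fun x hx => by
      rw [mem_closedBall, dist_eq_norm, not_le] at hx
      exact hf0 j x hx.le
  obtain ⟨R, hR0, hRS, hsm⟩ := inv_summable hfs hfc hS
  have hzero : ∀ x, x ∉ closedBall c (5 / 8 * r) → ∑' j, (R j)⁻¹ * f j x = 0 := fun x hx => by
    have h1 : ∀ j, f j x = 0 := fun j => by
      by_contra h
      have h2 : ‖x - cen c r j‖ < 2 * rad r j := by
        by_contra h3
        exact h (hf0 j x (not_lt.1 h3))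
      apply hx
      rw [mem_closedBall, dist_eq_norm]
      exact cen_near hr h2
    simp [h1]
  refine ⟨fun x => ∑' j, (R j)⁻¹ * f j x, R, hsm, ?_, ?_, hRS, fun j y hy => ?_⟩
  · exact HasCompactSupport.intro (isCompact_closedBall c (5 / 8 * r)) hzero
  · refine (closure_minimal ?_ isClosed_closedBall).trans
      ((closedBall_subset_ball (by linarith : 5 / 8 * r < r)).trans hball)
    intro x hx
    by_contra h
    exact hx (hzero x h)
  · have hyn : ‖y‖ < 1 := mem_ball_zero_iff.1 hy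
    have h1 : ‖cen c r j + rad r j • y - cen c r j‖ < 2 * rad r j := by
      rw [add_sub_cancel_left, norm_smul, Real.norm_of_nonneg (hρ j).le]
      have := hρ j
      nlinarith
    have h2 : ∀ i, i ≠ j → (R i)⁻¹ * f i (cen c r j + rad r j • y) = 0 := fun i hi => by
      have h3 : f i (cen c r j + rad r j • y) = 0 := by
        by_contra h
        apply hi
        refine cen_disj hr (c := c) (x := cen c r j + rad r j • y) ?_ h1
        by_contra h3
        exact h (hf0 i _ (not_lt.1 h3))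
      rw [h3, mul_zero]
    show R j * ∑' i, (R i)⁻¹ * f i (cen c r j + rad r j • y) = θ j y
    rw [tsum_eq_single j h2, ← mul_assoc, mul_inv_cancel₀ (hR0 j).ne', one_mul, hf]
    simp only
    rw [add_sub_cancel_left, smul_smul, inv_mul_cancel₀ (hρ j).ne', one_smul]
    have h4 : κ y = 1 := κ.one_of_mem_closedBall (by
      rw [mem_closedBall, dist_zero_right]; exact hyn.le)
    rw [h4, one_mul]

/-- the function `e^{iRφ}` on `U` -/
noncomputable def wv (U : Set (E 2)) (φ : E 2 → ℝ) (R : ℝ) : E 2 → ℂ :=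
  U.indicator (ee fun x => R * φ x)

theorem wv_meas {U : Set (E 2)} (hU : MeasurableSet U) {φ : E 2 → ℝ} (hφ : Measurable φ) (R : ℝ) :
    Measurable (wv U φ R) := (ee_meas (hφ.const_mul R)).indicator hU

theorem wv_le (U : Set (E 2)) (φ : E 2 → ℝ) (R : ℝ) (x : E 2) : ‖wv U φ R x‖ ≤ 1 :=
  (norm_indicator_le_norm_self _ _).trans (ee_norm _ x).le

/-- one phase decides all exponents -/
theorem universal {O : Set (E 2)} (hO : IsOpen O) (hne : O.Nonempty) {S : Set ℝ}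
    (hS : ¬ BddAbove S) : ∃ φ : E 2 → ℝ, ContDiff ℝ ∞ φ ∧ HasCompactSupport φ ∧ tsupport φ ⊆ O ∧
      ∀ U : Set (E 2), MeasurableSet U → O ⊆ U → U ⊆ ball 0 (1 / 2) → ∀ q : ℝ, 1 ≤ q →
        (∃ C : ℝ≥0, ∀ R ∈ S, NN q (wv U φ R) ≤ C) → LI (ball 0 (1 / 2)) q := by
  classical
  obtain ⟨c, ρ, hρ, hcO, hφ⟩ := phase_exists hO hne hS
  obtain ⟨χ, k, hχc, hkc, hki, hkw, hχ1, hχone, hχ0, hrep⟩ := bump (0 : E 2) one_pos
  set Bad : Set ℝ := {q | 1 ≤ q ∧ ¬ LI (ball 0 (1 / 2)) q} with hBad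
  set ex : Option ℚ → ℝ := fun o => o.elim (sSup Bad) (fun r => (r : ℝ)) with hex
  obtain ⟨σ, hσ⟩ := exists_surjective_nat (Option ℚ × ℕ)
  set A : ℝ≥0∞ := ∫⁻ z, ‖k z‖ₑ with hA
  have hAt : A ≠ ⊤ := hki.2.ne
  have hθex : ∀ j : ℕ, ∃ θ : E 2 → ℝ, ContDiff ℝ ∞ θ ∧ (1 ≤ ex (σ j).1 →
      ¬ LI (ball 0 (1 / 2)) (ex (σ j).1) →
      A ^ (ex (σ j).1) * ((cc (ex (σ j).1) (c j) (ρ j) (hρ j).ne')⁻¹ * ((σ j).2 : ℝ≥0∞)) <
        NN (ex (σ j).1) (fun x => χ x * ee θ x)) := fun j => by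
    by_cases h : 1 ≤ ex (σ j).1 ∧ ¬ LI (ball 0 (1 / 2)) (ex (σ j).1)
    · by_contra hcon
      push Not at hcon
      apply h.2
      refine LI_of_smooth h.1 hχc hχ1 hχone hχ0
        (C := A ^ (ex (σ j).1) * ((cc (ex (σ j).1) (c j) (ρ j) (hρ j).ne')⁻¹ * ((σ j).2 : ℝ≥0∞)))
        ?_ fun θ hθ _ => (hcon θ hθ).2.2
      exact ENNReal.mul_ne_top (ENNReal.rpow_ne_top_of_nonneg (by linarith [h.1]) hAt)
        (ENNReal.mul_ne_top (ENNReal.inv_ne_top.2 (cc_ne_zero (hρ j))) (ENNReal.natCast_ne_top _))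
    · refine ⟨fun _ => 0, contDiff_const, fun h1 h2 => absurd ⟨h1, h2⟩ h⟩
  choose θ hθs hθ using hθex
  obtain ⟨φ, R, hφs, hφc, hφO, hRS, hφθ⟩ := hφ θ hθs
  refine ⟨φ, hφs, hφc, hφO, fun U hU hOU hUb q hq ⟨C, hC⟩ => ?_⟩
  have hφm : Measurable φ := hφs.continuous.measurable
  have hwi : ∀ R, Integrable (wv U φ R) := fun R =>
    integrable_of_bdd (wv_meas hU hφm R) (wv_le U φ R) (R := 1 / 2) fun x hx => by
      unfold wv
      exact indicator_of_notMem (fun h => hx (hUb h)) _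
  -- the exponents of the list
  have hlist : ∀ o : Option ℚ, 1 ≤ ex o → ¬ LI (ball 0 (1 / 2)) (ex o) →
      ∀ D : ℝ≥0, ∃ R ∈ S, (D : ℝ≥0∞) < NN (ex o) (wv U φ R) := by
    intro o ho1 ho2 D
    obtain ⟨n, hn⟩ := exists_nat_ge D
    obtain ⟨j, hj⟩ := hσ (o, n)
    have h1 := hθ j
    have e1 : (σ j).1 = o := by rw [hj]
    have e2 : (σ j).2 = n := by rw [hj]
    rw [e1, e2] at h1
    have h2 := h1 ho1 ho2
    refine ⟨R j, hRS j, ?_⟩
    by_contra hcon
    push Not at hcon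
    set g : E 2 → ℂ := wv U φ (R j) with hg
    have hgm : Measurable g := wv_meas hU hφm _
    have hgm' : Measurable fun y : E 2 => g (c j + ρ j • y) :=
      hgm.comp (by fun_prop : Continuous fun y : E 2 => c j + ρ j • y).measurable
    have hgi' : Integrable fun y : E 2 => g (c j + ρ j • y) := by
      refine integrable_of_bdd hgm' (M := 1) (fun y => wv_le U φ _ _)
        (R := (1 / 2 + ‖c j‖) / ρ j) fun y hy => ?_
      rw [hg]
      unfold wv
      refine indicator_of_notMem (fun h => hy ?_) _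
      have h3 := hUb h
      rw [mem_ball_zero_iff] at h3 ⊢
      rw [lt_div_iff₀ (hρ j)]
      have h4 : ρ j • y = (c j + ρ j • y) - c j := by abel
      calc ‖y‖ * ρ j = ‖ρ j • y‖ := by
            rw [norm_smul, Real.norm_of_nonneg (hρ j).le, mul_comm]
        _ = ‖(c j + ρ j • y) - c j‖ := by rw [← h4]
        _ ≤ ‖c j + ρ j • y‖ + ‖c j‖ := norm_sub_le _ _
        _ < _ := by linarith
    have h3 := NN_resc (q := ex o) (by linarith) (u := c j) (hρ j) hgi'
    have h4 := NN_mult (q := ex o) ho1 hkc hki hrep hgi'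
    have h5 : (fun y : E 2 => χ y * g (c j + ρ j • y)) = fun y => χ y * ee (θ j) y := by
      funext y
      by_cases hy : y ∈ ball (0 : E 2) 1
      · congr 1
        rw [hg]
        unfold wv
        have h6 : c j + ρ j • y ∈ U := hOU (hcO j (by
          rw [mem_ball, dist_eq_norm, add_sub_cancel_left, norm_smul,
            Real.norm_of_nonneg (hρ j).le]
          rw [mem_ball_zero_iff] at hy
          have := hρ j
          nlinarith))
        rw [indicator_of_mem h6]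
        unfold ee
        rw [← hφθ j y hy]
      · rw [hχ0 y hy, zero_mul, zero_mul]
    rw [h5] at h4
    have hcc0 : cc (ex o) (c j) (ρ j) (hρ j).ne' ≠ 0 := cc_ne_zero (hρ j)
    have hcct : cc (ex o) (c j) (ρ j) (hρ j).ne' ≠ ⊤ := cc_ne_top _
    have h6 : NN (ex o) (fun y : E 2 => g (c j + ρ j • y)) =
        (cc (ex o) (c j) (ρ j) (hρ j).ne')⁻¹ * NN (ex o) g := by
      rw [h3, ← mul_assoc, ENNReal.inv_mul_cancel hcc0 hcct, one_mul]
    rw [h6] at h4
    have h7 : A ^ ex o * ((cc (ex o) (c j) (ρ j) (hρ j).ne')⁻¹ * NN (ex o) g) ≤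
        A ^ ex o * ((cc (ex o) (c j) (ρ j) (hρ j).ne')⁻¹ * (n : ℝ≥0∞)) := by
      gcongr
      refine hcon.trans ?_
      exact_mod_cast hn
    exact absurd (h2.trans_le (h4.trans h7)) (lt_irrefl _)
  by_contra hbad
  have hqB : q ∈ Bad := ⟨hq, hbad⟩
  -- the bound for larger exponents
  have hlarge : ∀ q' : ℝ, q ≤ q' → ∃ D : ℝ≥0, ∀ R ∈ S, NN q' (wv U φ R) ≤ D := fun q' hqq => by
    have ht : volume (ball (0 : E 2) (1 / 2)) ^ (q' - q) * C ≠ ⊤ :=
      ENNReal.mul_ne_top (ENNReal.rpow_ne_top_of_nonneg (by linarith) measure_ball_lt_top.ne)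
        ENNReal.coe_ne_top
    refine ⟨(volume (ball (0 : E 2) (1 / 2)) ^ (q' - q) * C).toNNReal, fun R hR => ?_⟩
    rw [ENNReal.coe_toNNReal ht]
    have h0 : ∀ x, x ∉ ball (0 : E 2) (1 / 2) → wv U φ R x = 0 := fun x hx => by
      unfold wv
      exact indicator_of_notMem (fun h => hx (hUb h)) _
    refine (NN_exp (by linarith) hqq _ (lint_le (wv_le U φ R) measurableSet_ball h0)).trans ?_
    gcongr
    exact hC R hR
  have hfin : ∀ o : Option ℚ, q ≤ ex o → ¬ LI (ball 0 (1 / 2)) (ex o) → False := fun o ho1 ho2 => by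
    obtain ⟨D, hD⟩ := hlarge _ ho1
    obtain ⟨R', hR', hlt⟩ := hlist o (by linarith) ho2 D
    exact absurd hlt (not_lt.2 (hD R' hR'))
  by_cases hmax : ∃ q' ∈ Bad, q < q'
  · obtain ⟨q', hq', hlt⟩ := hmax
    obtain ⟨r, hr1, hr2⟩ := exists_rat_btwn hlt
    refine hfin (some r) hr1.le fun h => hq'.2 ?_
    exact LI_exp (by have : (0 : ℝ) ≤ ex (some r) := by show (0 : ℝ) ≤ r; linarith
                     exact this) hr2.le h
  · push Not at hmax
    have h1 : IsGreatest Bad q := ⟨hqB, fun q' hq' => hmax q' hq'⟩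
    have h2 : ex none = q := h1.csSup_eq
    exact hfin none h2.ge (by rw [h2]; exact hbad)

end Pool.Agent.H222.EX
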