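import Pool.Agent.H222.EX.Greedy

/-!
The restricted estimate with a gain.
-/

open MeasureTheory Set Filter Metric
open scoped ENNReal NNReal Topology

namespace Pool.Agent.H222.EX

open Pool.Agent.Helper184.PH Pool.Agent.Helper184.PH.P3

theorem LI_scale {q : ℝ} (hq : 0 ≤ q) {O : Set (E 2)} {C : ℝ≥0∞}
    (hC : ∀ f : E 2 → ℂ, Measurable f → (∀ x, ‖f x‖ ≤ 1) → (∀ x, x ∉ O → f x = 0) → NN q f ≤ C)
    {M : ℝ} (hM : 0 < M) {f : E 2 → ℂ} (hf : Measurable f) (hfM : ∀ x, ‖f x‖ ≤ M)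
    (h0 : ∀ x, x ∉ O → f x = 0) : NN q f ≤ ENNReal.ofReal M ^ q * C := by
  have h1 : f = fun x => (M : ℂ) * ((M : ℂ)⁻¹ * f x) := by
    funext x
    have : (M : ℂ) ≠ 0 := by exact_mod_cast hM.ne'
    field_simp
  have h2 : NN q f = ENNReal.ofReal M ^ q * NN q (fun x => (M : ℂ)⁻¹ * f x) := by
    conv_lhs => rw [h1]
    rw [NN_smul hq, ← ofReal_norm, Complex.norm_real, Real.norm_of_nonneg hM.le]
  rw [h2]
  gcongr
  refine hC _ (hf.const_mul _) (fun x => ?_) fun x hx => by rw [h0 x hx, mul_zero]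
  rw [norm_mul, norm_inv, Complex.norm_real, Real.norm_of_nonneg hM.le]
  rw [inv_mul_le_iff₀ hM, mul_one]
  exact hfM x

theorem exp_bound {x : ℝ} (hx : 0 ≤ x) {K : ℕ} {c : ℝ} (h : K * x ≤ c) :
    (1 + x) ^ K ≤ Real.exp c := by
  calc (1 + x) ^ K ≤ (Real.exp x) ^ K := by
        gcongr
        linarith [Real.add_one_le_exp x]
    _ = Real.exp (K * x) := by rw [← Real.exp_nat_mul]
    _ ≤ Real.exp c := Real.exp_le_exp.2 h

theorem restricted {q₂ q₁ : ℝ} (h2 : 2 ≤ q₂) (h21 : q₂ < q₁) (hL : LI (ball 0 2) q₂) {ε : ℝ}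
    (hε0 : 0 < ε) (hε1 : ε < 1) : ∃ C : ℝ≥0∞, C ≠ ∞ ∧ ∀ A : Set (E 2), MeasurableSet A →
      A ⊆ ball (0 : E 2) 1 → ∀ a : ℝ≥0, 0 < a → a ≤ 1 → volume A ≤ a →
      ∀ f : E 2 → ℂ, Measurable f → (∀ x, ‖f x‖ ≤ 1) → (∀ x, x ∉ A → f x = 0) →
        NN q₁ f ≤ C * (a : ℝ≥0∞) ^ (1 - ε) := by
  obtain ⟨C₂, hC₂⟩ := hL
  obtain ⟨C₁, hC₁⟩ := LI_exp (by linarith) h21.le ⟨C₂, hC₂⟩
  obtain ⟨M, hM⟩ := exists_nat_ge (((q₂ / (q₁ - q₂) + 1) / ε))
  have hd : 0 < q₁ - q₂ := by linarith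
  have hMpos : (0 : ℝ) < M := lt_of_lt_of_le (by positivity) hM
  have hMe : 0 ≤ (ε * M - 1) * (q₁ - q₂) - q₂ := by
    rw [div_le_iff₀ hε0] at hM
    have h1 : q₂ / (q₁ - q₂) ≤ ε * M - 1 := by linarith
    rw [div_le_iff₀ hd] at h1
    linarith
  have hb0 : volume (ball (0 : E 2) 1) ≠ 0 := (measure_ball_pos _ _ one_pos).ne'
  have hbt : volume (ball (0 : E 2) 1) ≠ ∞ := measure_ball_lt_top.ne
  set c : ℝ := ((volume (ball (0 : E 2) 1))⁻¹).toReal with hc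
  have hc0 : 0 ≤ c := ENNReal.toReal_nonneg
  have hcc : (volume (ball (0 : E 2) 1))⁻¹ = ENNReal.ofReal c :=
    (ENNReal.ofReal_toReal (ENNReal.inv_ne_top.2 hb0)).symm
  set W : ℝ≥0∞ := ENNReal.ofReal (Real.exp (2 * c)) * volume (ball (0 : E 2) 2) with hW
  have hWt : W ≠ ∞ := ENNReal.mul_ne_top ENNReal.ofReal_ne_top measure_ball_lt_top.ne
  set D : ℝ≥0∞ := 2 ^ (q₁ - 1) * (ENNReal.ofReal M ^ q₁ * C₁ +
    (2 * W) ^ (q₁ - q₂) * (2 ^ q₂ * C₂)) with hD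
  have hDt : D ≠ ∞ := by
    refine ENNReal.mul_ne_top (by simp) (ENNReal.add_ne_top.2 ⟨?_, ?_⟩)
    · exact ENNReal.mul_ne_top (ENNReal.rpow_ne_top_of_nonneg (by linarith) ENNReal.ofReal_ne_top)
        ENNReal.coe_ne_top
    · exact ENNReal.mul_ne_top (ENNReal.rpow_ne_top_of_nonneg hd.le
        (ENNReal.mul_ne_top (by simp) hWt)) (ENNReal.mul_ne_top (by simp) ENNReal.coe_ne_top)
  refine ⟨D, hDt, fun A hA hAb a ha0 ha1 hAa f hf hf1 hfA => ?_⟩
  have ha0' : (a : ℝ≥0∞) ≠ 0 := by exact_mod_cast ha0.ne'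
  have hat : (a : ℝ≥0∞) ≠ ∞ := ENNReal.coe_ne_top
  have har : (0 : ℝ) < a := ha0
  have har1 : (a : ℝ) ≤ 1 := ha1
  set t : ℝ≥0 := a ^ (-ε) with ht
  have ht1 : 1 ≤ t := by
    apply NNReal.coe_le_coe.1
    rw [ht, NNReal.coe_rpow, NNReal.coe_one]
    exact Real.one_le_rpow_of_pos_of_le_one_of_nonpos har har1 (by linarith)
  set κ : ℝ := (a : ℝ) ^ (-(1 - ε)) with hκ
  have hκ1 : 1 ≤ κ := Real.one_le_rpow_of_pos_of_le_one_of_nonpos har har1 (by linarith)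
  set K : ℕ := ⌈κ⌉₊ with hK
  have hKκ : κ ≤ K := Nat.le_ceil κ
  have hK2 : (K : ℝ) ≤ 2 * κ := by
    have := Nat.ceil_lt_add_one (by linarith : 0 ≤ κ)
    linarith
  have hK1 : (1 : ℝ) ≤ K := hκ1.trans hKκ
  have hK0 : (0 : ℝ) < K := by linarith
  have hκa : κ ≤ (a : ℝ)⁻¹ := by
    rw [hκ, ← Real.rpow_neg_one]
    exact Real.rpow_le_rpow_of_exponent_ge har har1 (by linarith)
  obtain ⟨F, N, hF, hN, hFN, hNK, hN0, hint, hKF⟩ :=
    greedy (by linarith : 2 ≤ q₁) hA hAb hf hf1 hfA (t := t) K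
  -- the size of the potential
  have hpot : (∫⁻ x in ball (0 : E 2) 2, (t : ℝ≥0∞) ^ (N x)) ≤ W := by
    refine hint.trans ?_
    rw [hW]
    gcongr
    have e1 : (1 : ℝ≥0∞) + t * ((volume (ball (0 : E 2) 1))⁻¹ * volume A) ≤
        ENNReal.ofReal (1 + t * (c * a)) := by
      rw [hcc, ENNReal.ofReal_add zero_le_one (by positivity), ENNReal.ofReal_one,
        ENNReal.ofReal_mul (by positivity), ENNReal.ofReal_mul hc0, ENNReal.ofReal_coe_nnreal,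
        ENNReal.ofReal_coe_nnreal]
      gcongr
    refine (pow_le_pow_left₀ (by positivity) e1 K).trans ?_
    rw [← ENNReal.ofReal_pow (by positivity)]
    apply ENNReal.ofReal_le_ofReal
    refine exp_bound (by positivity) ?_
    have e2 : (t : ℝ) * a = (a : ℝ) ^ (1 - ε) := by
      rw [ht, NNReal.coe_rpow]
      nth_rewrite 2 [← Real.rpow_one (a : ℝ)]
      rw [← Real.rpow_add har]
      congr 1; ring
    have e3 : κ * (a : ℝ) ^ (1 - ε) = 1 := by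
      rw [hκ, ← Real.rpow_add har]; simp
    calc (K : ℝ) * (t * (c * a)) = c * (K * (t * a)) := by ring
      _ ≤ c * (2 * κ * (t * a)) := by gcongr
      _ = 2 * c := by rw [e2, mul_assoc, e3]; ring
  -- the part of high multiplicity
  set S : Set (E 2) := {x | M ≤ N x} with hS
  have hSm : MeasurableSet S := hN measurableSet_Ici
  set G : E 2 → ℂ := S.indicator F with hG
  set H : E 2 → ℂ := Sᶜ.indicator F with hH
  have hGm : Measurable G := hF.indicator hSm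
  have hHm : Measurable H := hF.indicator hSm.compl
  have hF0 : ∀ x, x ∉ ball (0 : E 2) 2 → F x = 0 := fun x hx => by
    have h1 := hFN x
    rw [hN0 x hx] at h1
    simpa using h1
  have hFK : ∀ x, ‖F x‖ ≤ K := fun x => (hFN x).trans (by exact_mod_cast hNK x)
  have hG0 : ∀ x, x ∉ ball (0 : E 2) 2 → G x = 0 := fun x hx => by
    rw [hG]; exact indicator_apply_eq_zero.2 fun _ => hF0 x hx
  have hH0 : ∀ x, x ∉ ball (0 : E 2) 2 → H x = 0 := fun x hx => by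
    rw [hH]; exact indicator_apply_eq_zero.2 fun _ => hF0 x hx
  have hGK : ∀ x, ‖G x‖ ≤ K := fun x => by
    rw [hG]; exact (norm_indicator_le_norm_self _ _).trans (hFK x)
  have hHM : ∀ x, ‖H x‖ ≤ M := fun x => by
    by_cases hx : x ∈ S
    · rw [hH, indicator_of_notMem (by simpa using hx)]; simp
    · rw [hH, indicator_of_mem (by simpa using hx)]
      have h1 : N x < M := not_le.1 hx
      exact (hFN x).trans (by exact_mod_cast h1.le)
  have hGi : Integrable G := integrable_of_bdd hGm hGK hG0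
  have hHi : Integrable H := integrable_of_bdd hHm hHM hH0
  have hsum : F = fun x => H x + G x := by
    funext x
    by_cases hx : x ∈ S
    · rw [hG, hH, indicator_of_notMem (by simpa using hx), indicator_of_mem hx, zero_add]
    · rw [hG, hH, indicator_of_mem (by simpa using hx), indicator_of_notMem hx, add_zero]
  have hs : (a : ℝ≥0∞) ^ (ε * M) * (t : ℝ≥0∞) ^ M = 1 := by
    rw [ht, ENNReal.coe_rpow_of_ne_zero ha0.ne', ← ENNReal.rpow_natCast, ← ENNReal.rpow_mul,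
      ← ENNReal.rpow_add _ _ ha0' hat]
    simp
  have hG1 : ∫⁻ x, ‖G x‖ₑ ≤ K * (a : ℝ≥0∞) ^ (ε * M) * W := by
    have e1 : ∀ x, ‖G x‖ₑ ≤ (ball (0 : E 2) 2).indicator (fun x =>
        K * (a : ℝ≥0∞) ^ (ε * M) * (t : ℝ≥0∞) ^ (N x)) x := fun x => by
      by_cases hx : x ∈ ball (0 : E 2) 2
      · rw [indicator_of_mem hx]
        by_cases hxS : x ∈ S
        · have e2 : ‖G x‖ₑ ≤ K := by
            rw [← ofReal_norm, ← ENNReal.ofReal_natCast]
            exact ENNReal.ofReal_le_ofReal (hGK x)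
          refine e2.trans ?_
          calc (K : ℝ≥0∞) = K * ((a : ℝ≥0∞) ^ (ε * M) * (t : ℝ≥0∞) ^ M) := by rw [hs, mul_one]
            _ ≤ K * ((a : ℝ≥0∞) ^ (ε * M) * (t : ℝ≥0∞) ^ (N x)) := by
                have ht1' : (1 : ℝ≥0∞) ≤ t := by exact_mod_cast ht1
                gcongr
                exact hxS
            _ = _ := by ring
        · rw [hG, indicator_of_notMem hxS]; simp
      · rw [hG0 x hx]; simp
    refine (lintegral_mono e1).trans ?_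
    rw [lintegral_indicator measurableSet_ball, lintegral_const_mul' _ _
      (ENNReal.mul_ne_top (ENNReal.natCast_ne_top K) (ENNReal.rpow_ne_top_of_nonneg
        (by positivity) hat))]
    gcongr
  have hKa : (K : ℝ≥0∞) ≤ 2 * (a : ℝ≥0∞)⁻¹ := by
    rw [← ENNReal.coe_inv ha0.ne']
    have : (K : ℝ≥0) ≤ 2 * a⁻¹ := by
      apply NNReal.coe_le_coe.1
      push_cast
      nlinarith
    exact_mod_cast this
  have hNG : NN q₁ G ≤ (2 * W) ^ (q₁ - q₂) * (2 ^ q₂ * C₂) := by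
    have e1 := NN_exp (by linarith : 0 ≤ q₂) h21.le G hG1
    have e2 := LI_scale (by linarith : 0 ≤ q₂) hC₂ hK0 hGm hGK hG0
    rw [ENNReal.ofReal_natCast] at e2
    refine e1.trans ?_
    calc (K * (a : ℝ≥0∞) ^ (ε * M) * W) ^ (q₁ - q₂) * NN q₂ G
        ≤ (2 * (a : ℝ≥0∞)⁻¹ * (a : ℝ≥0∞) ^ (ε * M) * W) ^ (q₁ - q₂) *
            ((2 * (a : ℝ≥0∞)⁻¹) ^ q₂ * C₂) := by
          gcongr
          exact e2.trans (by gcongr)
      _ = (2 * W) ^ (q₁ - q₂) * (2 ^ q₂ * C₂) *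
            (a : ℝ≥0∞) ^ ((ε * M - 1) * (q₁ - q₂) - q₂) := by
          rw [← ENNReal.rpow_neg_one,
            show 2 * (a : ℝ≥0∞) ^ (-1 : ℝ) * (a : ℝ≥0∞) ^ (ε * M) * W =
              (2 * W) * ((a : ℝ≥0∞) ^ (-1 : ℝ) * (a : ℝ≥0∞) ^ (ε * M)) by ring,
            ← ENNReal.rpow_add _ _ ha0' hat, ENNReal.mul_rpow_of_nonneg _ _ hd.le,
            ENNReal.mul_rpow_of_nonneg _ _ (by linarith : 0 ≤ q₂), ← ENNReal.rpow_mul,
            ← ENNReal.rpow_mul,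
            show (2 * W) ^ (q₁ - q₂) * (a : ℝ≥0∞) ^ ((-1 + ε * M) * (q₁ - q₂)) *
              (2 ^ q₂ * (a : ℝ≥0∞) ^ (-1 * q₂) * C₂) = (2 * W) ^ (q₁ - q₂) * (2 ^ q₂ * C₂) *
              ((a : ℝ≥0∞) ^ ((-1 + ε * M) * (q₁ - q₂)) * (a : ℝ≥0∞) ^ (-1 * q₂)) by ring,
            ← ENNReal.rpow_add _ _ ha0' hat]
          congr 2
          ring
      _ ≤ (2 * W) ^ (q₁ - q₂) * (2 ^ q₂ * C₂) * 1 := by
          gcongr
          exact ENNReal.rpow_le_one (by exact_mod_cast ha1) hMe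
      _ = _ := mul_one _
  have hNH : NN q₁ H ≤ ENNReal.ofReal M ^ q₁ * C₁ :=
    LI_scale (by linarith) hC₁ hMpos hHm hHM hH0
  have hNF : NN q₁ F ≤ D := by
    rw [hsum]
    refine (NN_add' (by linarith) hHi hGi).trans ?_
    rw [hD]
    gcongr
  have hKinv : (K : ℝ≥0∞)⁻¹ ≤ (a : ℝ≥0∞) ^ (1 - ε) := by
    have e1 : (a : ℝ≥0∞) ^ (-(1 - ε)) ≤ K := by
      rw [← ENNReal.coe_rpow_of_ne_zero ha0.ne']
      have : a ^ (-(1 - ε)) ≤ (K : ℝ≥0) := by
        apply NNReal.coe_le_coe.1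
        rw [NNReal.coe_rpow]
        exact hKκ
      exact_mod_cast this
    rw [ENNReal.rpow_neg] at e1
    exact ENNReal.inv_le_iff_inv_le.2 e1
  have hKne : (K : ℝ≥0∞) ≠ 0 := by
    have : K ≠ 0 := by
      intro h
      rw [h] at hK0
      simp at hK0
    exact_mod_cast this
  calc NN q₁ f = (K : ℝ≥0∞)⁻¹ * (K * NN q₁ f) := by
        rw [← mul_assoc, ENNReal.inv_mul_cancel hKne (ENNReal.natCast_ne_top K), one_mul]
    _ ≤ (a : ℝ≥0∞) ^ (1 - ε) * D := by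
        gcongr
        exact hKF.trans hNF
    _ = D * (a : ℝ≥0∞) ^ (1 - ε) := mul_comm _ _

end Pool.Agent.H222.EX
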