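import Pool.Agent.H222.EX.Gen

/-!
From smooth phases to bounded functions.
-/

open MeasureTheory Set Filter Metric
open scoped ENNReal NNReal Topology ContDiff

namespace Pool.Agent.H222.EX

open Pool.Agent.Helper184.PH Pool.Agent.Helper184.PH.P3

/-- `e^{iθ}` -/
noncomputable def ee (θ : E 2 → ℝ) (x : E 2) : ℂ := Complex.exp (θ x * Complex.I)

theorem ee_norm (θ : E 2 → ℝ) (x : E 2) : ‖ee θ x‖ = 1 := Complex.norm_exp_ofReal_mul_I _

theorem ee_meas {θ : E 2 → ℝ} (hθ : Measurable θ) : Measurable (ee θ) := by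
  unfold ee
  exact Complex.measurable_exp.comp ((Complex.measurable_ofReal.comp hθ).mul_const _)

theorem ee_sub (θ η : E 2 → ℝ) (x : E 2) : ‖ee θ x - ee η x‖ ≤ ‖θ x - η x‖ := by
  unfold ee
  have h1 : Complex.exp (θ x * Complex.I) - Complex.exp (η x * Complex.I) =
      Complex.exp (η x * Complex.I) * (Complex.exp (Complex.I * ((θ x - η x : ℝ) : ℂ)) - 1) := by
    rw [mul_sub, mul_one, ← Complex.exp_add]
    congr 2
    push_cast
    ring
  rw [h1, norm_mul, Complex.norm_exp_ofReal_mul_I, one_mul]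
  exact Real.norm_exp_I_mul_ofReal_sub_one_le

theorem real_integrable {θ : E 2 → ℝ} (hθ : Measurable θ) {B : ℝ} (hB : ∀ x, ‖θ x‖ ≤ B) :
    Integrable ((ball (0 : E 2) 1).indicator θ) := by
  rw [integrable_indicator_iff measurableSet_ball]
  have : IsFiniteMeasure (volume.restrict (ball (0 : E 2) 1)) :=
    ⟨by rw [Measure.restrict_apply_univ]; exact measure_ball_lt_top⟩
  exact Integrable.of_bound hθ.aestronglyMeasurable B (Eventually.of_forall hB)

/-- all bounded measurable phases -/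
theorem meas_phase {q : ℝ} (hq : 1 ≤ q) {χ : E 2 → ℂ} (hχ : Continuous χ)
    (hχ1 : ∀ x, ‖χ x‖ ≤ 1) (hχ0 : ∀ x, x ∉ ball (0 : E 2) 1 → χ x = 0) {C : ℝ≥0∞}
    (h : ∀ θ : E 2 → ℝ, ContDiff ℝ ∞ θ → HasCompactSupport θ → NN q (fun x => χ x * ee θ x) ≤ C)
    {θ : E 2 → ℝ} (hθ : Measurable θ) {B : ℝ} (hB : ∀ x, ‖θ x‖ ≤ B) :
    NN q (fun x => χ x * ee θ x) ≤ C := by
  have hw : MemLp ((ball (0 : E 2) 1).indicator θ) 1 volume :=
    memLp_one_iff_integrable.2 (real_integrable hθ hB)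
  have hex : ∀ n : ℕ, ∃ g : E 2 → ℝ, HasCompactSupport g ∧ ContDiff ℝ ∞ g ∧
      eLpNorm ((ball (0 : E 2) 1).indicator θ - g) 1 volume ≤
        ENNReal.ofReal (1 / ((n : ℝ) + 1)) := fun n =>
    hw.exist_eLpNorm_sub_le ENNReal.one_ne_top le_rfl (by positivity)
  choose g hgc hgs hg using hex
  have hint : ∀ η : E 2 → ℝ, Measurable η → Integrable fun x => χ x * ee η x := fun η hη =>
    integrable_of_bdd (M := 1) (R := 1) (hχ.measurable.mul (ee_meas hη)) (fun x => by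
      rw [norm_mul, ee_norm, mul_one]; exact hχ1 x) fun x hx => by rw [hχ0 x hx, zero_mul]
  refine NN_lim (by linarith) (F := fun n x => χ x * ee (g n) x)
    (fun n => hint _ (hgs n).continuous.measurable) (hint θ hθ) ?_
    fun n => h (g n) (hgs n) (hgc n)
  have hlim : Tendsto (fun n : ℕ => ENNReal.ofReal (1 / ((n : ℝ) + 1))) atTop (𝓝 0) := by
    rw [← ENNReal.ofReal_zero]
    exact ENNReal.tendsto_ofReal tendsto_one_div_add_atTop_nhds_zero_nat
  refine tendsto_of_tendsto_of_tendsto_of_le_of_le tendsto_const_nhds hlim (fun n => bot_le)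
    fun n => ?_
  refine le_trans ?_ (hg n)
  rw [eLpNorm_one_eq_lintegral_enorm]
  refine lintegral_mono fun x => ?_
  rw [← ofReal_norm, ← ofReal_norm]
  apply ENNReal.ofReal_le_ofReal
  rw [← mul_sub, norm_mul, Pi.sub_apply]
  by_cases hx : x ∈ ball (0 : E 2) 1
  · rw [indicator_of_mem hx]
    calc ‖χ x‖ * ‖ee (g n) x - ee θ x‖ ≤ 1 * ‖g n x - θ x‖ := by
          gcongr
          · exact hχ1 x
          · exact ee_sub _ _ x
      _ = ‖θ x - g n x‖ := by rw [one_mul, norm_sub_rev]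
  · rw [hχ0 x hx, norm_zero, zero_mul]
    exact norm_nonneg _

theorem LI_of_smooth {q : ℝ} (hq : 1 ≤ q) {χ : E 2 → ℂ} (hχ : Continuous χ)
    (hχ1 : ∀ x, ‖χ x‖ ≤ 1) (hχone : ∀ x ∈ closedBall (0 : E 2) (1 / 2), χ x = 1)
    (hχ0 : ∀ x, x ∉ ball (0 : E 2) 1 → χ x = 0) {C : ℝ≥0∞} (hCt : C ≠ ⊤)
    (h : ∀ θ : E 2 → ℝ, ContDiff ℝ ∞ θ → HasCompactSupport θ → NN q (fun x => χ x * ee θ x) ≤ C) :
    LI (ball 0 (1 / 2)) q := by
  have hq0 : 0 ≤ q := by linarith
  set D : ℝ≥0∞ := 2 ^ (q - 1) * (‖(1 / 2 : ℂ)‖ₑ ^ q * C + ‖(1 / 2 : ℂ)‖ₑ ^ q * C) with hD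
  have hh : ‖(1 / 2 : ℂ)‖ₑ ^ q ≠ ⊤ := ENNReal.rpow_ne_top_of_nonneg hq0 enorm_ne_top
  have hDt : D ≠ ⊤ := ENNReal.mul_ne_top (by simp) (ENNReal.add_ne_top.2
    ⟨ENNReal.mul_ne_top hh hCt, ENNReal.mul_ne_top hh hCt⟩)
  refine ⟨D.toNNReal, fun f hf hf1 hf0 => ?_⟩
  rw [ENNReal.coe_toNNReal hDt]
  set θ₁ : E 2 → ℝ := fun x => Complex.arg (f x) + Real.arccos ‖f x‖ with hθ₁
  set θ₂ : E 2 → ℝ := fun x => Complex.arg (f x) - Real.arccos ‖f x‖ with hθ₂
  have hm1 : Measurable fun x => Complex.arg (f x) := Complex.measurable_arg.comp hf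
  have hm2 : Measurable fun x => Real.arccos ‖f x‖ := Real.continuous_arccos.measurable.comp hf.norm
  have hθ₁m : Measurable θ₁ := hm1.add hm2
  have hθ₂m : Measurable θ₂ := hm1.sub hm2
  have hb : ∀ x, |Complex.arg (f x)| ≤ Real.pi ∧ |Real.arccos ‖f x‖| ≤ Real.pi := fun x =>
    ⟨Complex.abs_arg_le_pi _, by
      rw [abs_of_nonneg (Real.arccos_nonneg _)]; exact Real.arccos_le_pi _⟩
  have hθ₁b : ∀ x, ‖θ₁ x‖ ≤ 2 * Real.pi := fun x => by
    have h1 := hb x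
    rw [hθ₁, Real.norm_eq_abs]
    refine (abs_add_le _ _).trans ?_
    linarith [h1.1, h1.2]
  have hθ₂b : ∀ x, ‖θ₂ x‖ ≤ 2 * Real.pi := fun x => by
    have h1 := hb x
    rw [hθ₂, Real.norm_eq_abs]
    refine (abs_sub _ _).trans ?_
    linarith [h1.1, h1.2]
  have hsum : ∀ x, ee θ₁ x + ee θ₂ x = 2 * f x := fun x => by
    have e1 : ee θ₁ x + ee θ₂ x = Complex.exp (Complex.arg (f x) * Complex.I) *
        (Complex.exp ((Real.arccos ‖f x‖ : ℝ) * Complex.I) +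
          Complex.exp (-(Real.arccos ‖f x‖ : ℝ) * Complex.I)) := by
      unfold ee
      rw [mul_add, ← Complex.exp_add, ← Complex.exp_add, hθ₁, hθ₂]
      congr 1
      · congr 1; push_cast; ring
      · congr 1; push_cast; ring
    rw [e1, ← Complex.two_cos, ← Complex.ofReal_cos,
      Real.cos_arccos (by linarith [norm_nonneg (f x)]) (hf1 x)]
    have e2 := Complex.norm_mul_exp_arg_mul_I (f x)
    calc Complex.exp (Complex.arg (f x) * Complex.I) * (2 * (‖f x‖ : ℂ)) =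
          2 * ((‖f x‖ : ℂ) * Complex.exp (Complex.arg (f x) * Complex.I)) := by ring
      _ = 2 * f x := by rw [e2]
  have hfe : f = fun x => (1 / 2 : ℂ) * (χ x * ee θ₁ x) + (1 / 2 : ℂ) * (χ x * ee θ₂ x) := by
    funext x
    have e1 : f x = χ x * f x := by
      by_cases hx : x ∈ ball (0 : E 2) (1 / 2)
      · rw [hχone x (ball_subset_closedBall hx), one_mul]
      · rw [hf0 x hx, mul_zero]
    calc f x = χ x * f x := e1
      _ = (1 / 2 : ℂ) * (χ x * (2 * f x)) := by ring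
      _ = _ := by rw [← hsum x]; ring
  have hint : ∀ η : E 2 → ℝ, Measurable η → Integrable fun x => (1 / 2 : ℂ) * (χ x * ee η x) :=
    fun η hη => by
      have h1 : Integrable fun x => χ x * ee η x :=
        integrable_of_bdd (M := 1) (R := 1) (hχ.measurable.mul (ee_meas hη)) (fun x => by
          rw [norm_mul, ee_norm, mul_one]; exact hχ1 x) fun x hx => by rw [hχ0 x hx, zero_mul]
      exact h1.const_mul _
  rw [hfe]
  refine (NN_add' hq (hint θ₁ hθ₁m) (hint θ₂ hθ₂m)).trans ?_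
  rw [NN_smul hq0, NN_smul hq0, hD]
  gcongr
  · exact meas_phase hq hχ hχ1 hχ0 h hθ₁m hθ₁b
  · exact meas_phase hq hχ hχ1 hχ0 h hθ₂m hθ₂b

end Pool.Agent.H222.EX
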